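import Pool.Agent.Work.MP_efd9e3_ag.Fl.DirP

/-! MODULE RelExt (MP_efd9e3_ag/Fl), helper69.  The relation extends from an open set of centres `p` to all of them.

`rel_ext`: for `μ ν : Fin N → K` the polynomial
`R = ∑ z ∈ T, c z * (linf μ * C (ν·y z) - linf ν * C (μ·y z)) ^ s` in `p` satisfies: `g * R` vanishes at all points
(use `h` with `lam = (μ·p) ν - (ν·p) μ`, which is orthogonal to `p`), so `g * R = 0`, `R = 0`.
Let `lam·p = 0`.  If `p ≠ 0` choose `μ` with `μ·p = 1`, `ν = lam`: `eval p R` is the claim.
If `p = 0`: choose `p₁ ≠ 0` with `lam·p₁ = 0` (`2 ≤ N`); the one-variable polynomial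
`a ↦ ∑ eval (a • p₁) (c z) * (lam·y z)^s` vanishes for `a ≠ 0`, so for `a = 0` (`K` infinite).

`rel_comp`: the relation holds for the homogeneous components of the coefficients. -/

set_option autoImplicit false

open MvPolynomial

namespace Geproci

variable {K : Type*} [Field K] {N : ℕ} {ι : Type*}

/-- `eval (a • p) q` as a polynomial in `a` -/
private noncomputable def RelExt_line (p : Fin N → K) (q : MvPolynomial (Fin N) K) : Polynomial K :=
  ∑ ρ ∈ Finset.range (q.totalDegree + 1),
    Polynomial.C (eval p (homogeneousComponent ρ q)) * Polynomial.X ^ ρ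

private theorem RelExt_smul {q : MvPolynomial (Fin N) K} {t : ℕ} (hq : q.IsHomogeneous t)
    (a : K) (p : Fin N → K) : eval (a • p) q = a ^ t * eval p q := by
  rw [eval_eq, eval_eq, Finset.mul_sum]
  refine Finset.sum_congr rfl fun d hd => ?_
  have hdeg : ∑ i ∈ d.support, d i = t := hq.degree_eq_sum_deg_support hd ▸ rfl
  have : ∏ i ∈ d.support, (a • p) i ^ d i = a ^ t * ∏ i ∈ d.support, p i ^ d i := by
    rw [← hdeg, ← Finset.prod_pow_eq_pow_sum, ← Finset.prod_mul_distrib]
    refine Finset.prod_congr rfl fun i _ => ?_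
    rw [Pi.smul_apply, smul_eq_mul, mul_pow]
  rw [this]
  ring

private theorem RelExt_line_eval (p : Fin N → K) (q : MvPolynomial (Fin N) K) (a : K) :
    (RelExt_line p q).eval a = eval (a • p) q := by
  conv_rhs => rw [← sum_homogeneousComponent q, map_sum]
  rw [RelExt_line, Polynomial.eval_finsetSum]
  refine Finset.sum_congr rfl fun ρ _ => ?_
  rw [RelExt_smul (homogeneousComponent_isHomogeneous ρ q), Polynomial.eval_mul, Polynomial.eval_C,
    Polynomial.eval_pow, Polynomial.eval_X, mul_comm]

private theorem RelExt_line_coeff (p : Fin N → K) (q : MvPolynomial (Fin N) K) (ρ : ℕ) :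
    (RelExt_line p q).coeff ρ = eval p (homogeneousComponent ρ q) := by
  rw [RelExt_line, Polynomial.finsetSum_coeff]
  simp only [Polynomial.coeff_C_mul, Polynomial.coeff_X_pow, mul_ite, mul_one, mul_zero]
  rw [Finset.sum_ite_eq]
  split_ifs with h
  · rfl
  · rw [Finset.mem_range] at h
    rw [homogeneousComponent_eq_zero _ _ (by omega), map_zero]

theorem rel_ext [Infinite K] (hN : 2 ≤ N) (s : ℕ) (T : Finset ι) (y : ι → Fin N → K)
    (c : ι → MvPolynomial (Fin N) K) (g : MvPolynomial (Fin N) K) (hg : g ≠ 0)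
    (h : ∀ lam p : Fin N → K, ∑ k, lam k * p k = 0 → eval p g ≠ 0 →
      ∑ z ∈ T, eval p (c z) * (∑ k, lam k * y z k) ^ s = 0) :
    ∀ lam p : Fin N → K, ∑ k, lam k * p k = 0 →
      ∑ z ∈ T, eval p (c z) * (∑ k, lam k * y z k) ^ s = 0 := by
  have key : ∀ mu nu p : Fin N → K, ∑ z ∈ T, eval p (c z) *
      ((∑ k, mu k * p k) * (∑ k, nu k * y z k) - (∑ k, nu k * p k) * (∑ k, mu k * y z k)) ^ s = 0 := by
    intro mu nu
    set R : MvPolynomial (Fin N) K := ∑ z ∈ T, c z *
      (linf mu * C (∑ k, nu k * y z k) - linf nu * C (∑ k, mu k * y z k)) ^ s with hR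
    have hRe : ∀ p, eval p R = ∑ z ∈ T, eval p (c z) *
      ((∑ k, mu k * p k) * (∑ k, nu k * y z k) - (∑ k, nu k * p k) * (∑ k, mu k * y z k)) ^ s := by
      intro p
      rw [hR, map_sum]
      refine Finset.sum_congr rfl fun z _ => ?_
      rw [map_mul, map_pow, map_sub, map_mul, map_mul, eval_linf, eval_linf, eval_C, eval_C]
    have hR0 : R = 0 := by
      have h1 : g * R = 0 := by
        apply MvPolynomial.funext
        intro p
        rw [map_mul, map_zero]
        by_cases hp : eval p g = 0
        · rw [hp, zero_mul]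
        · have h2 := h (fun k => (∑ j, mu j * p j) * nu k - (∑ j, nu j * p j) * mu k) p (by
            simp only [sub_mul, Finset.sum_sub_distrib, mul_assoc, ← Finset.mul_sum]
            ring) hp
          have h3 : eval p R = 0 := by
            rw [hRe, ← h2]
            refine Finset.sum_congr rfl fun z _ => ?_
            congr 2
            simp only [sub_mul, Finset.sum_sub_distrib, mul_assoc, ← Finset.mul_sum]
          rw [h3, mul_zero]
      exact (mul_eq_zero.1 h1).resolve_left hg
    intro p
    rw [← hRe, hR0, map_zero]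
  have hne : ∀ lam p : Fin N → K, p ≠ 0 → ∑ k, lam k * p k = 0 →
      ∑ z ∈ T, eval p (c z) * (∑ k, lam k * y z k) ^ s = 0 := by
    intro lam p hp hlp
    obtain ⟨j, hj⟩ := Function.ne_iff.1 hp
    rw [Pi.zero_apply] at hj
    have h1 := key (Pi.single j (p j)⁻¹) lam p
    have h2 : ∑ k, (Pi.single j (p j)⁻¹ : Fin N → K) k * p k = 1 := by
      rw [Finset.sum_eq_single j]
      · rw [Pi.single_eq_same, inv_mul_cancel₀ hj]
      · intro b _ hb
        rw [Pi.single_eq_of_ne hb, zero_mul]
      · simp
    simpa only [h2, hlp, one_mul, zero_mul, sub_zero] using h1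
  intro lam p hlp
  by_cases hp : p = 0
  · subst hp
    -- a non-zero vector orthogonal to `lam`
    obtain ⟨p₁, hp₁, hl₁⟩ : ∃ p₁ : Fin N → K, p₁ ≠ 0 ∧ ∑ k, lam k * p₁ k = 0 := by
      have hi : (⟨0, by omega⟩ : Fin N) ≠ ⟨1, by omega⟩ := by
        intro h
        have := congrArg Fin.val h
        simp at this
      by_cases h0 : lam ⟨0, by omega⟩ = 0
      · refine ⟨Pi.single ⟨0, by omega⟩ 1, ?_, ?_⟩
        · intro h
          have := congrFun h ⟨0, by omega⟩
          simp at this
        · rw [Finset.sum_eq_single ⟨0, by omega⟩]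
          · rw [h0, zero_mul]
          · intro b _ hb
            rw [Pi.single_eq_of_ne hb, mul_zero]
          · simp
      · refine ⟨fun k => lam ⟨1, by omega⟩ * (Pi.single ⟨0, by omega⟩ 1 : Fin N → K) k -
          lam ⟨0, by omega⟩ * (Pi.single ⟨1, by omega⟩ 1 : Fin N → K) k, ?_, ?_⟩
        · intro h
          have := congrFun h ⟨1, by omega⟩
          simp only [Pi.single_eq_same, Pi.single_eq_of_ne hi.symm, mul_zero, mul_one, zero_sub,
            Pi.zero_apply, neg_eq_zero] at this
          exact h0 this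
        · simp only [mul_sub, Finset.sum_sub_distrib]
          rw [Finset.sum_eq_single ⟨0, by omega⟩, Finset.sum_eq_single ⟨1, by omega⟩]
          · simp only [Pi.single_eq_same]
            ring
          · intro b _ hb
            rw [Pi.single_eq_of_ne hb, mul_zero, mul_zero]
          · simp
          · intro b _ hb
            rw [Pi.single_eq_of_ne hb, mul_zero, mul_zero]
          · simp
    set P : Polynomial K := ∑ z ∈ T,
      RelExt_line p₁ (c z) * Polynomial.C ((∑ k, lam k * y z k) ^ s) with hP
    have hPe : ∀ a, P.eval a = ∑ z ∈ T, eval (a • p₁) (c z) * (∑ k, lam k * y z k) ^ s := by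
      intro a
      rw [hP, Polynomial.eval_finsetSum]
      refine Finset.sum_congr rfl fun z _ => ?_
      rw [Polynomial.eval_mul, Polynomial.eval_C, RelExt_line_eval]
    have hP0 : Polynomial.X * P = 0 := by
      apply Polynomial.funext
      intro a
      rw [Polynomial.eval_mul, Polynomial.eval_X, Polynomial.eval_zero]
      by_cases ha : a = 0
      · rw [ha, zero_mul]
      · rw [hPe, hne lam (a • p₁) (smul_ne_zero ha hp₁), mul_zero]
        simp only [Pi.smul_apply, smul_eq_mul]
        calc ∑ k, lam k * (a * p₁ k) = a * ∑ k, lam k * p₁ k := by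
              rw [Finset.mul_sum]; exact Finset.sum_congr rfl fun k _ => by ring
          _ = 0 := by rw [hl₁, mul_zero]
    have hP1 : P = 0 := (mul_eq_zero.1 hP0).resolve_left Polynomial.X_ne_zero
    have h3 := hPe 0
    rw [hP1, Polynomial.eval_zero, zero_smul] at h3
    exact h3.symm
  · exact hne lam p hp hlp

theorem rel_comp [Infinite K] (s : ℕ) (T : Finset ι) (y : ι → Fin N → K)
    (c : ι → MvPolynomial (Fin N) K)
    (h : ∀ lam p : Fin N → K, ∑ k, lam k * p k = 0 →
      ∑ z ∈ T, eval p (c z) * (∑ k, lam k * y z k) ^ s = 0) (ρ : ℕ) :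
    ∀ lam p : Fin N → K, ∑ k, lam k * p k = 0 →
      ∑ z ∈ T, eval p (homogeneousComponent ρ (c z)) * (∑ k, lam k * y z k) ^ s = 0 := by
  intro lam p hlp
  set P : Polynomial K := ∑ z ∈ T,
    RelExt_line p (c z) * Polynomial.C ((∑ k, lam k * y z k) ^ s) with hP
  have hP0 : P = 0 := by
    apply Polynomial.funext
    intro a
    rw [hP, Polynomial.eval_finsetSum, Polynomial.eval_zero]
    rw [← h lam (a • p) (by
      simp only [Pi.smul_apply, smul_eq_mul]
      calc ∑ k, lam k * (a * p k) = a * ∑ k, lam k * p k := by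
            rw [Finset.mul_sum]; exact Finset.sum_congr rfl fun k _ => by ring
        _ = 0 := by rw [hlp, mul_zero])]
    refine Finset.sum_congr rfl fun z _ => ?_
    rw [Polynomial.eval_mul, Polynomial.eval_C, RelExt_line_eval]
  have h1 := congrArg (fun q => Polynomial.coeff q ρ) hP0
  simp only [hP, Polynomial.finsetSum_coeff, Polynomial.coeff_mul_C, RelExt_line_coeff,
    Polynomial.coeff_zero] at h1
  exact h1

end Geproci
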