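import Pool.Agent.Work.MP_efd9e3_ag.Fl.DirP

/-! MODULE DirZero (MP_efd9e3_ag/Fl), helper69. -/

set_option autoImplicit false

open MvPolynomial

namespace Geproci

variable {K : Type*} [Field K] {N : ℕ}

theorem dvd_of_prime_pow {R : Type*} [CommRing R] [IsDomain R] [UniqueFactorizationMonoid R] (c b : R)
    (hc : c ≠ 0) (h : ∀ S : R, Irreducible S → ∀ k : ℕ, S ^ k ∣ c → S ^ k ∣ b) : c ∣ b := by
  induction c using UniqueFactorizationMonoid.induction_on_coprime with
  | h0 => exact absurd rfl hc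
  | h1 hu => exact hu.dvd
  | hpr i hp => exact h _ hp.irreducible i dvd_rfl
  | hcp hxy hx hy =>
    exact hxy.mul_dvd
      (hx (left_ne_zero_of_mul hc) fun S hS k hk => h S hS k (Dvd.dvd.mul_right hk _))
      (hy (right_ne_zero_of_mul hc) fun S hS k hk => h S hS k (Dvd.dvd.mul_left hk _))

theorem dirP_eq_zero (v : Fin N → K) (c : MvPolynomial (Fin N) K) (hc : c ≠ 0)
    (h : ∀ S : MvPolynomial (Fin N) K, Irreducible S → ∀ k : ℕ, S ^ k ∣ c → S ^ k ∣ dirP v c) :
    dirP v c = 0 := by
  rcases dirP_degree v c with h1 | h1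
  · exact h1
  · by_contra hne
    obtain ⟨b, hb⟩ := dvd_of_prime_pow c _ hc h
    have hb0 : b ≠ 0 := by
      rintro rfl
      exact hne (by rw [hb, mul_zero])
    have h2 : (dirP v c).totalDegree = c.totalDegree + b.totalDegree := by
      conv_lhs => rw [hb]
      exact totalDegree_mul_of_isDomain hc hb0
    omega

end Geproci
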