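import Pool.Agent.Work.MP_efd9e3_ag.Fl.DirP

/-! MODULE Der (MP_efd9e3_ag/Fl), helper69.  Differentiation of the relation with respect to the centre.

For fixed `v` the map `p ↦ proj p v` is linear, `Der_lin v`; `eval p (compL (Der_lin v) q) = q (proj p v)`.  The
hypothesis says that for every form `q` of degree `s + 1` the polynomial `∑ i, c i * compL (Der_lin (z i)) q` vanishes
at all `p`, so it is zero; apply `dirP w` (chain rule `dirP_compL`). -/

set_option autoImplicit false

open MvPolynomial

namespace Geproci

variable {K : Type*} [Field K] {n : ℕ} {ι : Type*}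

private def Der_lin (v : Fin (n+1) → K) : (Fin (n+1) → K) →ₗ[K] (Fin n → K) where
  toFun p := proj p v
  map_add' a b := by
    funext i
    simp only [proj, Pi.add_apply]
    ring
  map_smul' c a := by
    funext i
    simp only [proj, Pi.smul_apply, smul_eq_mul, RingHom.id_apply]
    ring

private theorem Der_main [CharZero K] [Fintype ι] (z : ι → Fin (n+1) → K) (s : ℕ)
    (c : ι → MvPolynomial (Fin (n+1)) K)
    (h : ∀ (p : Fin (n+1) → K) (q : MvPolynomial (Fin n) K), q.IsHomogeneous (s+1) →
      ∑ i, eval p (c i) * eval (proj p (z i)) q = 0)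
    (p w : Fin (n+1) → K) (q : MvPolynomial (Fin n) K) (hq : q.IsHomogeneous (s+1)) :
    ∑ i, (eval p (dirP w (c i)) * eval (proj p (z i)) q +
      eval p (c i) * eval (proj p (z i)) (dirP (proj w (z i)) q)) = 0 := by
  have h1 : ∑ i, c i * compL (Der_lin (z i)) q = 0 := by
    apply MvPolynomial.funext
    intro p
    rw [map_sum, map_zero, ← h p q hq]
    refine Finset.sum_congr rfl fun i _ => ?_
    rw [map_mul, eval_compL]
    rfl
  have h2 := congrArg (fun Q => eval p (dirP w Q)) h1
  simp only [dirP_sum, dirP_mul, map_sum, map_add, map_mul, dirP_compL, eval_compL] at h2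
  rw [← C_0, dirP_C, map_zero] at h2
  exact h2

private theorem Der_euler {N : ℕ} (x : Fin N → K) (q : MvPolynomial (Fin N) K) (t : ℕ)
    (hq : q.IsHomogeneous t) : eval x (dirP x q) = (t : K) * eval x q := by
  have h1 := congrArg (eval x) hq.sum_X_mul_pderiv
  rw [map_sum] at h1
  simp only [map_mul, eval_X, nsmul_eq_mul, map_natCast] at h1
  rw [eval_dirP, h1]

theorem der_radial [CharZero K] [Fintype ι] (z : ι → Fin (n+1) → K) (s : ℕ)
    (c : ι → MvPolynomial (Fin (n+1)) K)
    (h : ∀ (p : Fin (n+1) → K) (q : MvPolynomial (Fin n) K), q.IsHomogeneous (s+1) →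
      ∑ i, eval p (c i) * eval (proj p (z i)) q = 0)
    (p : Fin (n+1) → K) (q : MvPolynomial (Fin n) K) (hq : q.IsHomogeneous (s+1)) :
    ∑ i, eval p (dirP p (c i)) * eval (proj p (z i)) q = 0 := by
  have h1 := Der_main z s c h p p q hq
  rw [Finset.sum_add_distrib] at h1
  have h2 : ∑ i, eval p (c i) * eval (proj p (z i)) (dirP (proj p (z i)) q) = 0 := by
    calc ∑ i, eval p (c i) * eval (proj p (z i)) (dirP (proj p (z i)) q)
        = ((s+1 : ℕ) : K) * ∑ i, eval p (c i) * eval (proj p (z i)) q := by
          rw [Finset.mul_sum]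
          refine Finset.sum_congr rfl fun i _ => ?_
          rw [Der_euler _ q (s+1) hq]
          ring
      _ = 0 := by rw [h p q hq, mul_zero]
  rwa [h2, add_zero] at h1

theorem der_contract [CharZero K] [Fintype ι] (z : ι → Fin (n+1) → K) (s : ℕ)
    (c : ι → MvPolynomial (Fin (n+1)) K)
    (h : ∀ (p : Fin (n+1) → K) (q : MvPolynomial (Fin n) K), q.IsHomogeneous (s+1) →
      ∑ i, eval p (c i) * eval (proj p (z i)) q = 0)
    (p : Fin (n+1) → K) (h' : MvPolynomial (Fin n) K) (hh : h'.IsHomogeneous s) :
    ∑ i, (p (Fin.last n) * eval p (dirP (z i) (c i)) - z i (Fin.last n) * eval p (dirP p (c i)) -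
      ((n + s : ℕ) : K) * z i (Fin.last n) * eval p (c i)) * eval (proj p (z i)) h' = 0 := by
  have h1 : ∀ k : Fin n, ∑ i, (eval p (pderiv k.castSucc (c i)) * (proj p (z i) k *
      eval (proj p (z i)) h') - eval p (c i) * (z i (Fin.last n) * (eval (proj p (z i)) h' +
        proj p (z i) k * eval (proj p (z i)) (pderiv k h')))) = 0 := by
    intro k
    have h2 := Der_main z s c h p (Pi.single k.castSucc 1) (X k * h') (by
      rw [add_comm]
      exact (isHomogeneous_X K k).mul hh)
    rw [← h2]
    refine Finset.sum_congr rfl fun i _ => ?_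
    have h3 : eval p (dirP (Pi.single k.castSucc 1) (c i)) = eval p (pderiv k.castSucc (c i)) := by
      rw [eval_dirP, Finset.sum_eq_single k.castSucc]
      · rw [Pi.single_eq_same, one_mul]
      · intro b _ hb
        rw [Pi.single_eq_of_ne hb, zero_mul]
      · simp
    have h4 : proj (Pi.single k.castSucc 1) (z i) = Pi.single k (-(z i (Fin.last n))) := by
      funext l
      have h5 : (Pi.single k.castSucc 1 : Fin (n+1) → K) (Fin.last n) = 0 :=
        Pi.single_eq_of_ne (Fin.castSucc_lt_last k).ne' _
      rw [proj, h5, zero_mul, zero_sub]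
      by_cases hl : l = k
      · subst hl
        rw [Pi.single_eq_same, Pi.single_eq_same, mul_one]
      · rw [Pi.single_eq_of_ne hl, Pi.single_eq_of_ne (fun h => hl (Fin.castSucc_injective n h)),
          mul_zero, neg_zero]
    have h6 : eval (proj p (z i)) (dirP (Pi.single k (-(z i (Fin.last n)))) (X k * h')) =
        -(z i (Fin.last n) * (eval (proj p (z i)) h' +
        proj p (z i) k * eval (proj p (z i)) (pderiv k h'))) := by
      rw [eval_dirP, Finset.sum_eq_single k]
      · rw [Pi.single_eq_same, Derivation.leibniz, pderiv_X_self, smul_eq_mul, smul_eq_mul, map_add,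
          map_mul, map_mul, eval_X, map_one]
        ring
      · intro b _ hb
        rw [Pi.single_eq_of_ne hb, zero_mul]
      · simp
    rw [h3, h4, h6, map_mul, eval_X]
    ring
  have h2 : ∑ k : Fin n, ∑ i, (eval p (pderiv k.castSucc (c i)) * (proj p (z i) k *
      eval (proj p (z i)) h') - eval p (c i) * (z i (Fin.last n) * (eval (proj p (z i)) h' +
        proj p (z i) k * eval (proj p (z i)) (pderiv k h')))) = 0 :=
    Finset.sum_eq_zero fun k _ => h1 k
  rw [Finset.sum_comm] at h2
  rw [← h2]
  refine Finset.sum_congr rfl fun i _ => ?_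
  have hE : ∑ k : Fin n, proj p (z i) k * eval (proj p (z i)) (pderiv k h') =
      (s : K) * eval (proj p (z i)) h' := by
    rw [← Der_euler _ h' s hh, eval_dirP]
  have hD : ∑ k : Fin n, eval p (pderiv k.castSucc (c i)) * proj p (z i) k =
      p (Fin.last n) * eval p (dirP (z i) (c i)) - z i (Fin.last n) * eval p (dirP p (c i)) := by
    rw [eval_dirP, eval_dirP, Fin.sum_univ_castSucc, Fin.sum_univ_castSucc, mul_add, mul_add,
      Finset.mul_sum, Finset.mul_sum]
    have : ∑ k : Fin n, eval p (pderiv k.castSucc (c i)) * proj p (z i) k =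
        ∑ k : Fin n, p (Fin.last n) * (z i k.castSucc * eval p (pderiv k.castSucc (c i))) -
        ∑ k : Fin n, z i (Fin.last n) * (p k.castSucc * eval p (pderiv k.castSucc (c i))) := by
      rw [← Finset.sum_sub_distrib]
      refine Finset.sum_congr rfl fun k _ => ?_
      rw [proj]
      ring
    rw [this]
    ring
  rw [Finset.sum_sub_distrib]
  have h7 : ∑ k : Fin n, eval p (pderiv k.castSucc (c i)) * (proj p (z i) k *
      eval (proj p (z i)) h') = (p (Fin.last n) * eval p (dirP (z i) (c i)) -
        z i (Fin.last n) * eval p (dirP p (c i))) * eval (proj p (z i)) h' := by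
    rw [← hD, Finset.sum_mul]
    exact Finset.sum_congr rfl fun k _ => by ring
  have h8 : ∑ k : Fin n, eval p (c i) * (z i (Fin.last n) * (eval (proj p (z i)) h' +
        proj p (z i) k * eval (proj p (z i)) (pderiv k h'))) =
      eval p (c i) * (z i (Fin.last n) * (((n : K) + s) * eval (proj p (z i)) h')) := by
    rw [← Finset.mul_sum, ← Finset.mul_sum, Finset.sum_add_distrib, hE]
    simp only [Finset.sum_const, Finset.card_univ, Fintype.card_fin, nsmul_eq_mul]
    ring
  rw [h7, h8]
  push_cast
  ring

end Geproci
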