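import Pool.Agent.Work.MP_efd9e3_ag.Fl.Defs

/-! MODULE PowPolar (MP_efd9e3_ag/Fl), helper69.  Powers of linear forms span the forms of degree `s`, in the dual
form. -/

set_option autoImplicit false

open MvPolynomial

namespace Geproci

variable {K : Type*} [Field K] {N : ℕ} {ι : Type*}

theorem pow_polar [CharZero K] (s : ℕ) (T : Finset ι) (y : ι → Fin N → K) (a : ι → K)
    (h : ∀ lam : Fin N → K, ∑ z ∈ T, a z * (∑ k, lam k * y z k) ^ s = 0)
    (H : MvPolynomial (Fin N) K) (hH : H.IsHomogeneous s) : ∑ z ∈ T, a z * eval (y z) H = 0 := by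
  induction s generalizing a H with
  | zero =>
    rw [← totalDegree_zero_iff_isHomogeneous, totalDegree_eq_zero_iff_eq_C] at hH
    have h1 := h 0
    simp only [pow_zero, mul_one] at h1
    rw [hH]
    simp only [eval_C]
    rw [← Finset.sum_mul, h1, zero_mul]
  | succ s ih =>
    have hpoly : (∑ z ∈ T, C (a z) * (∑ k, C (y z k) * X k) ^ (s+1) : MvPolynomial (Fin N) K) = 0 := by
      apply MvPolynomial.funext
      intro lam
      rw [map_sum, map_zero, ← h lam]
      refine Finset.sum_congr rfl fun z _ => ?_
      rw [map_mul, eval_C, map_pow, map_sum]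
      congr 2
      exact Finset.sum_congr rfl fun k _ => by rw [map_mul, eval_C, eval_X, mul_comm]
    have hs : ((s : K) + 1) ≠ 0 := Nat.cast_add_one_ne_zero s
    have hder : ∀ (k : Fin N) (lam : Fin N → K),
        ∑ z ∈ T, (a z * y z k) * (∑ k, lam k * y z k) ^ s = 0 := by
      intro k lam
      have h1 := congrArg (fun q => eval lam (pderiv k q)) hpoly
      simp only [map_sum, map_zero, Derivation.leibniz, Derivation.leibniz_pow, pderiv_C,
        smul_eq_mul, mul_zero, add_zero, pderiv_X, Pi.single_apply, map_mul, map_pow, eval_C, eval_X,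
        nsmul_eq_mul, map_natCast] at h1
      have h2 : ∑ z ∈ T, ((s : K) + 1) * ((a z * y z k) * (∑ k, lam k * y z k) ^ s) = 0 := by
        rw [← h1]
        refine Finset.sum_congr rfl fun z _ => ?_
        have h3 : ∑ x : Fin N, y z x * lam x = ∑ x, lam x * y z x :=
          Finset.sum_congr rfl fun x _ => mul_comm _ _
        have h4 : ∑ x : Fin N, y z x * (eval lam) (if k = x then 1 else 0) = y z k := by
          rw [Finset.sum_eq_single k]
          · simp
          · intro b _ hb
            rw [if_neg (Ne.symm hb), map_zero, mul_zero]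
          · simp
        rw [h3]
        simp only [add_tsub_cancel_right, Nat.cast_add, Nat.cast_one]
        first
          | rw [h4]; ring
          | (have h5 : ∑ x : Fin N, y z x * (eval lam) (if x = k then 1 else 0) = y z k := by
              rw [Finset.sum_eq_single k]
              · simp
              · intro b _ hb
                rw [if_neg hb, map_zero, mul_zero]
              · simp
             rw [h5]; ring)
      rw [← Finset.mul_sum] at h2
      exact (mul_eq_zero.1 h2).resolve_left hs
    have hk : ∀ k : Fin N, ∑ z ∈ T, (a z * y z k) * eval (y z) (pderiv k H) = 0 := fun k =>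
      ih (fun z => a z * y z k) (hder k) (pderiv k H) (by simpa using hH.pderiv (i := k))
    have heuler : ∀ z, ((s : K) + 1) * eval (y z) H = ∑ k, y z k * eval (y z) (pderiv k H) := by
      intro z
      have h1 := congrArg (eval (y z)) hH.sum_X_mul_pderiv
      rw [map_sum] at h1
      simp only [map_mul, eval_X, nsmul_eq_mul, Nat.cast_add, Nat.cast_one, map_add, map_one,
        map_natCast] at h1
      exact h1.symm
    have h5 : ((s : K) + 1) * ∑ z ∈ T, a z * eval (y z) H = 0 := by
      rw [Finset.mul_sum]
      calc ∑ z ∈ T, ((s : K) + 1) * (a z * eval (y z) H)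
          = ∑ z ∈ T, ∑ k, (a z * y z k) * eval (y z) (pderiv k H) := by
            refine Finset.sum_congr rfl fun z _ => ?_
            rw [mul_left_comm, heuler, Finset.mul_sum]
            exact Finset.sum_congr rfl fun k _ => by ring
        _ = ∑ k, ∑ z ∈ T, (a z * y z k) * eval (y z) (pderiv k H) := Finset.sum_comm
        _ = 0 := Finset.sum_eq_zero fun k _ => hk k
    exact (mul_eq_zero.1 h5).resolve_left hs

end Geproci
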