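import Pool.Agent.Work.MP_efd9e3_ag.Fl.DirP
import Pool.Agent.Work.MP_efd9e3_ag.Fl.RelExt

/-! MODULE SysMin (MP_efd9e3_ag/Fl), helper69.  A common factor of the coefficients can be cancelled; so there is a
system without a common irreducible factor. -/

set_option autoImplicit false

open MvPolynomial

namespace Geproci

variable {K : Type*} [Field K] {N : ℕ} {ι : Type*}

theorem sys_nonempty (hN : 1 ≤ N) (s : ℕ) (T : Finset ι) (y : ι → Fin N → K)
    (c : ι → MvPolynomial (Fin N) K) (h : Sys s T y c) : T.Nonempty := by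
  by_contra hcon
  rw [Finset.not_nonempty_iff_eq_empty] at hcon
  subst hcon
  have h1 := h.span
  rw [Finset.coe_empty, Set.image_empty, Submodule.span_empty] at h1
  have h2 : (Pi.single (⟨0, by omega⟩ : Fin N) (1 : K) : Fin N → K) ∈ (⊥ : Submodule K (Fin N → K)) := by
    rw [h1]; trivial
  rw [Submodule.mem_bot] at h2
  have := congrFun h2 ⟨0, by omega⟩
  simp at this

theorem sys_congr (s : ℕ) (T : Finset ι) (y : ι → Fin N → K) (c c' : ι → MvPolynomial (Fin N) K)
    (hc : ∀ z ∈ T, c z = c' z) (h : Sys s T y c) : Sys s T y c' := by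
  refine ⟨h.span, fun z hz => ?_, fun lam p hlp => ?_, h.ind, ?_⟩
  · rw [← hc z hz]; exact h.ne z hz
  · rw [← h.rel lam p hlp]
    exact Finset.sum_congr rfl fun z hz => by rw [hc z hz]
  · intro _ t ht
    rw [← h.lin t ht]
    refine Finset.sum_congr rfl fun z hz => ?_
    rw [hc z hz]
    congr 1
    exact Finset.prod_congr rfl fun z' hz' => by rw [hc z' (Finset.mem_of_mem_erase hz')]

theorem sys_cancel [Infinite K] (hN : 2 ≤ N) (s : ℕ) (T : Finset ι) (y : ι → Fin N → K)
    (c : ι → MvPolynomial (Fin N) K) (S : MvPolynomial (Fin N) K) (hS : S ≠ 0)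
    (h : Sys s T y (fun z => S * c z)) : Sys s T y c := by
  refine ⟨h.span, fun z hz => right_ne_zero_of_mul (h.ne z hz), ?_, h.ind, ?_⟩
  · refine rel_ext hN s T y c S hS fun lam p hlp hp => ?_
    have h1 := h.rel lam p hlp
    simp only [map_mul, mul_assoc] at h1
    rw [← Finset.mul_sum] at h1
    exact (mul_eq_zero.1 h1).resolve_left hp
  · intro _ t ht
    have h1 := h.lin t ht
    have h2 : ∀ z ∈ T, C (t z) * dirP (y z) (S * c z) * ∏ z' ∈ T.erase z, (S * c z') =
        (C (t z) * dirP (y z) S) * (S ^ (T.card - 1) * ∏ z' ∈ T, c z') +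
        S ^ T.card * (C (t z) * dirP (y z) (c z) * ∏ z' ∈ T.erase z, c z') := by
      intro z hz
      rw [dirP_mul, Finset.prod_mul_distrib, Finset.prod_const, Finset.card_erase_of_mem hz,
        ← Finset.mul_prod_erase T c hz]
      have hcard : T.card = (T.card - 1) + 1 := by
        have := Finset.card_pos.2 ⟨z, hz⟩
        omega
      have h3 : S ^ T.card = S ^ (T.card - 1) * S := by
        conv_lhs => rw [hcard, pow_succ]
      rw [h3]
      ring
    rw [Finset.sum_congr rfl h2, Finset.sum_add_distrib, ← Finset.sum_mul, sum_dirP, ht,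
      dirP_zero_left, zero_mul, zero_add, ← Finset.mul_sum] at h1
    exact (mul_eq_zero.1 h1).resolve_left (pow_ne_zero _ hS)

theorem sys_min [Infinite K] (hN : 2 ≤ N) (s : ℕ) (T : Finset ι) (y : ι → Fin N → K)
    (c : ι → MvPolynomial (Fin N) K) (h : Sys s T y c) :
    ∃ c' : ι → MvPolynomial (Fin N) K, Sys s T y c' ∧
      ∀ S : MvPolynomial (Fin N) K, Irreducible S → ∃ z ∈ T, ¬ S ∣ c' z := by
  classical
  obtain ⟨D, hD⟩ : ∃ D, ∑ z ∈ T, (c z).totalDegree = D := ⟨_, rfl⟩
  induction D using Nat.strong_induction_on generalizing c with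
  | _ D ih =>
    by_cases hmin : ∀ S : MvPolynomial (Fin N) K, Irreducible S → ∃ z ∈ T, ¬ S ∣ c z
    · exact ⟨c, h, hmin⟩
    · push Not at hmin
      obtain ⟨S, hS, hSc⟩ := hmin
      have hex : ∀ z, ∃ b : MvPolynomial (Fin N) K, z ∈ T → c z = S * b := by
        intro z
        by_cases hz : z ∈ T
        · obtain ⟨b, hb⟩ := hSc z hz
          exact ⟨b, fun _ => hb⟩
        · exact ⟨0, fun h => absurd h hz⟩
      choose b hb using hex
      have h1 : Sys s T y (fun z => S * b z) := sys_congr s T y c _ (fun z hz => hb z hz) h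
      have h2 := sys_cancel hN s T y b S hS.ne_zero h1
      have hdeg : 1 ≤ S.totalDegree := by
        by_contra hcon
        have h0 : S.totalDegree = 0 := by omega
        rw [totalDegree_eq_zero_iff_eq_C] at h0
        apply hS.not_isUnit
        rw [h0]
        apply IsUnit.map C
        rw [isUnit_iff_ne_zero]
        intro h00
        apply hS.ne_zero
        rw [h0, h00, C_0]
      obtain ⟨z₀, hz₀⟩ := sys_nonempty (by omega) s T y c h
      refine ih _ ?_ b h2 rfl
      rw [← hD]
      have hdz : ∀ z ∈ T, (c z).totalDegree = S.totalDegree + (b z).totalDegree := by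
        intro z hz
        rw [hb z hz]
        exact totalDegree_mul_of_isDomain hS.ne_zero (h2.ne z hz)
      apply Finset.sum_lt_sum
      · intro z hz
        rw [hdz z hz]
        omega
      · refine ⟨z₀, hz₀, ?_⟩
        rw [hdz z₀ hz₀]
        omega

end Geproci
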