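import Pool.Agent.Work.MP_efd9e3_ag.Fl.PowPolar
import Pool.Agent.Work.MP_efd9e3_ag.Fl.SysMin

/-! MODULE EndThree (MP_efd9e3_ag/Fl), helper69.  A system in `K^3` has at least `s + 2` points. -/

set_option autoImplicit false

open MvPolynomial

namespace Geproci

variable {K : Type*} [Field K] {N : ℕ} {ι : Type*}

theorem pts_line (s : ℕ) (T : Finset ι) (u : ι → Fin 2 → K) (a : ι → K) (hT : T.Nonempty)
    (ha : ∀ z ∈ T, a z ≠ 0) (hu : ∀ z ∈ T, u z ≠ 0)
    (hu2 : ∀ z ∈ T, ∀ z' ∈ T, z ≠ z' → u z 0 * u z' 1 - u z 1 * u z' 0 ≠ 0)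
    (h : ∀ H : MvPolynomial (Fin 2) K, H.IsHomogeneous s → ∑ z ∈ T, a z * eval (u z) H = 0) :
    s + 2 ≤ T.card := by
  classical
  by_contra hcard
  push Not at hcard
  obtain ⟨z₀, hz₀⟩ := hT
  -- a linear form non-zero at `u z₀`
  obtain ⟨j, hj⟩ := Function.ne_iff.1 (hu z₀ hz₀)
  rw [Pi.zero_apply] at hj
  set H : MvPolynomial (Fin 2) K :=
    (∏ z ∈ T.erase z₀, (C (u z 0) * X 1 - C (u z 1) * X 0)) * X j ^ (s + 1 - T.card) with hH
  have hHh : H.IsHomogeneous s := by
    have h1 : (∏ z ∈ T.erase z₀, (C (u z 0) * X 1 - C (u z 1) * X 0 : MvPolynomial (Fin 2) K)).IsHomogeneous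
        (∑ _z ∈ T.erase z₀, 1) := by
      refine IsHomogeneous.prod _ _ _ fun z _ => ?_
      exact (isHomogeneous_C_mul_X _ _).sub (isHomogeneous_C_mul_X _ _)
    have h2 := h1.mul ((isHomogeneous_X K j).pow (s + 1 - T.card))
    rw [Finset.sum_const, Finset.card_erase_of_mem hz₀, smul_eq_mul, mul_one, one_mul] at h2
    have hpos := Finset.card_pos.2 ⟨z₀, hz₀⟩
    have h3 : T.card - 1 + (s + 1 - T.card) = s := by omega
    rwa [h3] at h2
  have h4 := h H hHh
  rw [Finset.sum_eq_single z₀] at h4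
  · refine mul_ne_zero (ha z₀ hz₀) ?_ h4
    rw [hH, map_mul, map_prod, map_pow, eval_X]
    refine mul_ne_zero (Finset.prod_ne_zero_iff.2 fun z hz => ?_) (pow_ne_zero _ hj)
    rw [map_sub, map_mul, map_mul, eval_C, eval_C, eval_X, eval_X]
    exact hu2 z (Finset.mem_of_mem_erase hz) z₀ hz₀ (Finset.ne_of_mem_erase hz)
  · intro z hz hzz
    have h5 : eval (u z) H = 0 := by
      rw [hH, map_mul, map_prod, Finset.prod_eq_zero (Finset.mem_erase.2 ⟨hzz, hz⟩), zero_mul]
      rw [map_sub, map_mul, map_mul, eval_C, eval_C, eval_X, eval_X]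
      ring
    rw [h5, mul_zero]
  · intro hcon
    exact absurd hz₀ hcon

theorem sys_pairs (s : ℕ) (hs : 1 ≤ s) (T : Finset ι) (y : ι → Fin N → K)
    (c : ι → MvPolynomial (Fin N) K) (h : Sys s T y c) :
    (∀ z ∈ T, y z ≠ 0) ∧ ∀ z ∈ T, ∀ z' ∈ T, z ≠ z' → ∀ e : K, y z' ≠ e • y z := by
  classical
  constructor
  · intro z hz hyz
    have hs0 : s ≠ 0 := by omega
    have h1 := h.ind (fun w => if w = z then 1 else 0) (fun lam => by
      rw [Finset.sum_eq_single z]
      · simp [hyz, hs0]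
      · intro w _ hw
        rw [if_neg hw, zero_mul]
      · intro hcon
        exact absurd hz hcon) z hz
    rw [if_pos rfl] at h1
    exact one_ne_zero h1
  · intro z hz z' hz' hzz e he
    have h1 := h.ind (fun w => (if w = z' then 1 else 0) - (if w = z then e ^ s else 0)) (fun lam => by
      simp only [sub_mul, Finset.sum_sub_distrib, ite_mul, one_mul, zero_mul,
        Finset.sum_ite_eq', if_pos hz, if_pos hz']
      have h2 : ∑ k, lam k * y z' k = e * ∑ k, lam k * y z k := by
        rw [he, Finset.mul_sum]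
        refine Finset.sum_congr rfl fun k _ => ?_
        rw [Pi.smul_apply, smul_eq_mul]
        ring
      rw [h2, mul_pow, sub_self]) z' hz'
    rw [if_pos rfl, if_neg hzz.symm, sub_zero] at h1
    exact one_ne_zero h1

/-- the cross product -/
private def EndThree_cross (a b : Fin 3 → K) : Fin 3 → K :=
  ![a 1 * b 2 - a 2 * b 1, a 2 * b 0 - a 0 * b 2, a 0 * b 1 - a 1 * b 0]

private theorem EndThree_cross_ne (a b : Fin 3 → K) (ha : a ≠ 0) (hab : ∀ e : K, b ≠ e • a) :
    EndThree_cross a b ≠ 0 := by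
  intro h
  have h0 : a 1 * b 2 - a 2 * b 1 = 0 := congrFun h 0
  have h1 : a 2 * b 0 - a 0 * b 2 = 0 := congrFun h 1
  have h2 : a 0 * b 1 - a 1 * b 0 = 0 := congrFun h 2
  obtain ⟨j, hj⟩ := Function.ne_iff.1 ha
  rw [Pi.zero_apply] at hj
  apply hab (b j / a j)
  have key : ∀ i, a j * b i = b j * a i := by
    intro i
    fin_cases j <;> fin_cases i <;> simp only [Fin.zero_eta, Fin.mk_one, Fin.reduceFinMk] at * <;>
      first | ring1 | linear_combination h0 | linear_combination -h0 | linear_combination h1 |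
        linear_combination -h1 | linear_combination h2 | linear_combination -h2
  funext i
  rw [Pi.smul_apply, smul_eq_mul, div_mul_eq_mul_div, eq_div_iff hj, ← key i]
  ring

theorem sys_end [CharZero K] (s : ℕ) (hs : 1 ≤ s) (T : Finset ι) (y : ι → Fin 3 → K)
    (c : ι → MvPolynomial (Fin 3) K) (h : Sys s T y c) : s + 2 ≤ T.card := by
  classical
  have hT := sys_nonempty (by norm_num) s T y c h
  obtain ⟨hy0, hy2⟩ := sys_pairs s hs T y c h
  -- the polynomial which must not vanish at `p`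
  set G : MvPolynomial (Fin 3) K := X 2 * (∏ z ∈ T, c z) *
    ∏ z ∈ T, ∏ z' ∈ T.erase z, linf (EndThree_cross (y z) (y z')) with hG
  have hlin : ∀ l : Fin 3 → K, l ≠ 0 → linf l ≠ 0 := by
    intro l hl h0
    obtain ⟨j, hj⟩ := Function.ne_iff.1 hl
    apply hj
    have h1 := eval_linf l (Pi.single j 1)
    rw [h0, map_zero, Finset.sum_eq_single j] at h1
    · rw [Pi.single_eq_same, mul_one] at h1
      rw [Pi.zero_apply]
      exact h1.symm
    · intro b _ hb
      rw [Pi.single_eq_of_ne hb, mul_zero]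
    · simp
  have hG0 : G ≠ 0 := by
    refine mul_ne_zero (mul_ne_zero (X_ne_zero _) (Finset.prod_ne_zero_iff.2 fun z hz => h.ne z hz)) ?_
    refine Finset.prod_ne_zero_iff.2 fun z hz => Finset.prod_ne_zero_iff.2 fun z' hz' => ?_
    exact hlin _ (EndThree_cross_ne _ _ (hy0 z hz)
      (hy2 z hz z' (Finset.mem_of_mem_erase hz') (Finset.ne_of_mem_erase hz').symm))
  obtain ⟨p, hp⟩ : ∃ p : Fin 3 → K, eval p G ≠ 0 := by
    by_contra hcon
    push Not at hcon
    exact hG0 (MvPolynomial.funext fun p => by rw [hcon p, map_zero])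
  rw [hG, map_mul, map_mul, eval_X] at hp
  have hp2 := left_ne_zero_of_mul (left_ne_zero_of_mul hp)
  have hpc := right_ne_zero_of_mul (left_ne_zero_of_mul hp)
  have hpp := right_ne_zero_of_mul hp
  rw [map_prod, Finset.prod_ne_zero_iff] at hpc hpp
  -- the two functionals
  set mu : Fin 3 → K := ![p 2, 0, -p 0] with hmu
  set nu : Fin 3 → K := ![0, p 2, -p 1] with hnu
  set u : ι → Fin 2 → K := fun z => ![∑ k, mu k * y z k, ∑ k, nu k * y z k] with hu
  have hu0 : ∀ z, u z 0 = p 2 * y z 0 - p 0 * y z 2 := by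
    intro z
    simp [hu, hmu, Fin.sum_univ_three]
    ring
  have hu1 : ∀ z, u z 1 = p 2 * y z 1 - p 1 * y z 2 := by
    intro z
    simp [hu, hnu, Fin.sum_univ_three]
    ring
  have hdet : ∀ z z', u z 0 * u z' 1 - u z 1 * u z' 0 =
      p 2 * ∑ k, EndThree_cross (y z) (y z') k * p k := by
    intro z z'
    rw [hu0, hu1, hu0, hu1, Fin.sum_univ_three]
    simp only [EndThree_cross, Matrix.cons_val_zero, Matrix.cons_val_one, Matrix.cons_val]
    ring
  have hd : ∀ z ∈ T, ∀ z' ∈ T, z ≠ z' → u z 0 * u z' 1 - u z 1 * u z' 0 ≠ 0 := by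
    intro z hz z' hz' hzz
    rw [hdet]
    refine mul_ne_zero hp2 ?_
    have h1 := hpp z hz
    rw [map_prod, Finset.prod_ne_zero_iff] at h1
    have h2 := h1 z' (Finset.mem_erase.2 ⟨hzz.symm, hz'⟩)
    rwa [eval_linf] at h2
  have hrel : ∀ H : MvPolynomial (Fin 2) K, H.IsHomogeneous s →
      ∑ z ∈ T, eval p (c z) * eval (u z) H = 0 := by
    intro H hH
    refine pow_polar s T u (fun z => eval p (c z)) (fun lam => ?_) H hH
    have h1 := h.rel (fun k => lam 0 * mu k + lam 1 * nu k) p (by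
      rw [Fin.sum_univ_three]
      simp only [hmu, hnu, Matrix.cons_val_zero, Matrix.cons_val_one, Matrix.cons_val]
      ring)
    rw [← h1]
    refine Finset.sum_congr rfl fun z _ => ?_
    congr 2
    rw [Fin.sum_univ_two]
    simp only [hu, Matrix.cons_val_zero, Matrix.cons_val_one, add_mul, Finset.sum_add_distrib,
      mul_assoc, ← Finset.mul_sum]
  have hpc' : ∀ z ∈ T, eval p (c z) ≠ 0 := hpc
  by_cases hone : ∃ z ∈ T, u z = 0
  · -- then `T = {z}` and everything is one point; impossible because the `y z` span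
    exfalso
    obtain ⟨z, hz, huz⟩ := hone
    have hTz : ∀ z' ∈ T, z' = z := by
      intro z' hz'
      by_contra hne
      apply hd z hz z' hz' (Ne.symm hne)
      rw [huz]
      simp
    have hsp := h.span
    have h2 : y '' (T : Set ι) ⊆ {y z} := by
      rintro _ ⟨w, hw, rfl⟩
      rw [hTz w hw]
      rfl
    have h3 : (⊤ : Submodule K (Fin 3 → K)) ≤ Submodule.span K {y z} := by
      rw [← hsp]
      exact Submodule.span_mono h2
    have h4 := Submodule.finrank_mono h3
    rw [finrank_top, Module.finrank_fintype_fun_eq_card, Fintype.card_fin,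
      finrank_span_singleton (hy0 z hz)] at h4
    omega
  · push Not at hone
    exact pts_line s T u _ hT hpc' hone hd hrel

end Geproci
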