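import Pool.Agent.Work.MP_efd9e3_ag.Fl.Step
import Pool.Agent.Work.MP_efd9e3_ag.Fl.EndThree

/-! MODULE Ind (MP_efd9e3_ag/Fl), helper69.  Induction on `N` with `sys_step`, the start `N = 0` is `sys_end`. -/

set_option autoImplicit false

open MvPolynomial

namespace Geproci

variable {K : Type*} [Field K] {ι : Type*}

theorem sys_ind [IsAlgClosed K] [CharZero K] (s : ℕ) (hs : 1 ≤ s) : ∀ (N : ℕ) (T : Finset ι)
    (y : ι → Fin (N+3) → K) (c : ι → MvPolynomial (Fin (N+3)) K), Sys s T y c →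
    ∃ (φ : (Fin 3 → K) →ₗ[K] (Fin (N+3) → K)) (T' : Finset ι), Function.Injective φ ∧ T' ⊆ T ∧
      s + 2 ≤ T'.card ∧ Submodule.span K (y '' (T' : Set ι)) = LinearMap.range φ := by
  intro N
  induction N with
  | zero =>
    intro T y c h
    refine ⟨LinearMap.id, T, Function.injective_id, Finset.Subset.refl _, sys_end s hs T y c h, ?_⟩
    rw [h.span, LinearMap.range_id]
  | succ N ih =>
    intro T y c h
    obtain ⟨φ, T₁, y', c', hφ, hT₁, hy', hsys⟩ := sys_step (N := N + 3) (by omega) s T y c h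
    obtain ⟨ψ, T', hψ, hT', hcard, hsp⟩ := ih T₁ y' c' hsys
    refine ⟨φ ∘ₗ ψ, T', hφ.comp hψ, hT'.trans hT₁, hcard, ?_⟩
    rw [LinearMap.range_comp, ← hsp, Submodule.map_span]
    congr 1
    ext v
    constructor
    · rintro ⟨z, hz, rfl⟩
      exact ⟨y' z, ⟨z, hz, rfl⟩, hy' z (hT' hz)⟩
    · rintro ⟨_, ⟨z, hz, rfl⟩, rfl⟩
      exact ⟨z, hz, (hy' z (hT' hz)).symm⟩

end Geproci
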