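import Mathlib

/-! MODULE HNext (MP_efd9e3_ag/Fl), helper69.  The two top coefficients of `∏ (1 + X + … + X^{d i - 1})`. -/

set_option autoImplicit false

namespace Geproci

private theorem HNext_natDegree (d : ℕ) (hd : 2 ≤ d) :
    (∑ j ∈ Finset.range d, (Polynomial.X : Polynomial ℤ) ^ j).natDegree = d - 1 ∧
    (∑ j ∈ Finset.range d, (Polynomial.X : Polynomial ℤ) ^ j).Monic ∧
    (∑ j ∈ Finset.range d, (Polynomial.X : Polynomial ℤ) ^ j).nextCoeff = 1 := by
  have hc : ∀ t, (∑ j ∈ Finset.range d, (Polynomial.X : Polynomial ℤ) ^ j).coeff t =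
      if t < d then 1 else 0 := by
    intro t
    rw [Polynomial.finsetSum_coeff]
    simp only [Polynomial.coeff_X_pow]
    rw [Finset.sum_ite_eq]
    simp only [Finset.mem_range]
  have hdeg : (∑ j ∈ Finset.range d, (Polynomial.X : Polynomial ℤ) ^ j).natDegree = d - 1 := by
    apply Polynomial.natDegree_eq_of_le_of_coeff_ne_zero
    · rw [Polynomial.natDegree_le_iff_coeff_eq_zero]
      intro t ht
      rw [hc, if_neg (by omega)]
    · rw [hc, if_pos (by omega)]
      norm_num
  refine ⟨hdeg, ?_, ?_⟩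
  · rw [Polynomial.Monic, Polynomial.leadingCoeff, hdeg, hc, if_pos (by omega)]
  · rw [Polynomial.nextCoeff_of_natDegree_pos (by omega), hdeg, hc, if_pos (by omega)]

theorem top_coeff {m : ℕ} (d : Fin m → ℕ) (hd : ∀ i, 2 ≤ d i) (s : ℕ) (hs : s + 1 + m = ∑ i, d i) :
    (∏ i, ∑ j ∈ Finset.range (d i), (Polynomial.X : Polynomial ℤ) ^ j).coeff (s + 1) = 1 ∧
    (∏ i, ∑ j ∈ Finset.range (d i), (Polynomial.X : Polynomial ℤ) ^ j).coeff s = m ∧
    ∀ t, s + 1 < t →
      (∏ i, ∑ j ∈ Finset.range (d i), (Polynomial.X : Polynomial ℤ) ^ j).coeff t = 0 := by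
  have hmon : ∀ i ∈ (Finset.univ : Finset (Fin m)),
      (∑ j ∈ Finset.range (d i), (Polynomial.X : Polynomial ℤ) ^ j).Monic :=
    fun i _ => (HNext_natDegree (d i) (hd i)).2.1
  have hM := Polynomial.monic_prod_of_monic _ _ hmon
  have hdeg : (∏ i, ∑ j ∈ Finset.range (d i), (Polynomial.X : Polynomial ℤ) ^ j).natDegree = s + 1 := by
    rw [Polynomial.natDegree_prod_of_monic _ _ hmon]
    have h1 : ∑ i, (∑ j ∈ Finset.range (d i), (Polynomial.X : Polynomial ℤ) ^ j).natDegree =
        ∑ i, (d i - 1) := Finset.sum_congr rfl fun i _ => (HNext_natDegree (d i) (hd i)).1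
    rw [h1]
    have h2 : ∑ i, (d i - 1) + m = ∑ i, d i := by
      calc ∑ i, (d i - 1) + m = ∑ i, (d i - 1) + ∑ _i : Fin m, 1 := by simp
        _ = ∑ i, d i := by
          rw [← Finset.sum_add_distrib]
          refine Finset.sum_congr rfl fun i _ => ?_
          have := hd i
          omega
    omega
  refine ⟨?_, ?_, ?_⟩
  · have := hM.coeff_natDegree
    rwa [hdeg] at this
  · have h3 : (∏ i, ∑ j ∈ Finset.range (d i), (Polynomial.X : Polynomial ℤ) ^ j).nextCoeff = m := by
      rw [Polynomial.Monic.nextCoeff_prod _ _ hmon]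
      rw [Finset.sum_congr rfl fun i _ => (HNext_natDegree (d i) (hd i)).2.2]
      simp
    rw [Polynomial.nextCoeff_of_natDegree_pos (by omega), hdeg] at h3
    exact h3
  · intro t ht
    apply Polynomial.coeff_eq_zero_of_natDegree_lt
    omega

end Geproci
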