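import Pool.Agent.Work.MP_efd9e3_ag.Fl.HSer
import Pool.Agent.Work.MP_efd9e3_ag.Fl.HNext
import Pool.Agent.Work.MP_efd9e3_ag.CardEq

/-! MODULE HCod (MP_efd9e3_ag/Fl), helper69.  `codim (evs y (s+1)) = 1`, `codim (evs y s) = m + 1`, where
`(s+1) + 1 + m = ∑ d i`.

With `l` a linear form non-zero at the `y z`, `Y = Fin.cons l f`: `∑ t ∈ range (N+1), hf (idl Y univ) t =
hf (idl f univ) N = finrank (evs y N)`; `hf (idl Y univ)` is known by `hf_series_full`, `top_coeff`. -/

set_option autoImplicit false

open MvPolynomial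

namespace Geproci

variable {K : Type*} [Field K] {ι : Type*}

theorem codim_evs [IsAlgClosed K] [Fintype ι] [Nonempty ι] {m : ℕ} (y : ι → Fin (m+1) → K)
    (hy : Indep y)
    (f : Fin m → MvPolynomial (Fin (m+1)) K) (d : Fin m → ℕ) (hd : ∀ i, (f i).IsHomogeneous (d i))
    (hd2 : ∀ i, 2 ≤ d i)
    (hf : (Ideal.span (Set.range f) : Set (MvPolynomial (Fin (m+1)) K)) = vanish y)
    (s : ℕ) (hs : s + 2 + m = ∑ i, d i) :
    Module.finrank K (evs y (s+1)) + 1 = Fintype.card ι ∧
      Module.finrank K (evs y s) + (m + 1) = Fintype.card ι := by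
  have hd1 : ∀ i, 1 ≤ d i := fun i => le_trans (by norm_num) (hd2 i)
  have hinf : Infinite K := IsAlgClosed.instInfinite
  obtain ⟨c, hc⟩ := exists_comb y hy.1
  set l : MvPolynomial (Fin (m+1)) K := ∑ j, C (c j) * MvPolynomial.X j with hl
  have hl1 : l.IsHomogeneous 1 := IsHomogeneous.sum _ _ _ fun j _ => isHomogeneous_C_mul_X _ _
  have hle : ∀ x : Fin (m+1) → K, eval x l = ∑ j, c j * x j := by
    intro x; simp [hl]
  have hly : ∀ z, eval (y z) l ≠ 0 := fun z => by rw [hle]; exact hc z
  have hmem : ∀ q, q ∈ idl f Finset.univ ↔ q ∈ vanish y := by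
    intro q; rw [idl_univ, ← hf]; rfl
  have hreg : ∀ u, l * u ∈ idl f Finset.univ → u ∈ idl f Finset.univ := by
    intro u hu
    rw [hmem] at hu ⊢
    exact mem_vanish_of_mul y l hl1 hly u hu
  set Y : Fin (m+1) → MvPolynomial (Fin (m+1)) K := Fin.cons l f with hY
  set e : Fin (m+1) → ℕ := Fin.cons 1 d with he
  have hYe : ∀ i, (Y i).IsHomogeneous (e i) := by
    intro i
    refine Fin.cases ?_ (fun i => ?_) i
    · simpa [hY, he] using hl1
    · simpa [hY, he] using hd i
  have he1 : ∀ i, 1 ≤ e i := by
    intro i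
    refine Fin.cases ?_ (fun i => ?_) i
    · simp [he]
    · simpa [he] using hd1 i
  have hYi : idl Y Finset.univ = idl f Finset.univ ⊔ Ideal.span {l} := by
    rw [idl_univ, idl_univ, hY, Fin.range_cons, Ideal.span_insert, sup_comm]
  have hFull : Full (idl Y Finset.univ) := by
    apply full_of_zero
    intro x hx
    have h1 : ∀ q ∈ vanish y, eval x q = 0 := by
      intro q hq
      apply hx
      rw [hYi]
      exact Ideal.mem_sup_left ((hmem q).mpr hq)
    obtain ⟨z, a, rfl⟩ := zeros_vanish y hy.1 x h1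
    have h2 : eval (a • y z) l = 0 := by
      apply hx
      rw [hYi]
      exact Ideal.mem_sup_right (Ideal.mem_span_singleton_self l)
    rw [eval_smul_of_homog l 1 hl1, pow_one] at h2
    rcases mul_eq_zero.mp h2 with h3 | h3
    · rw [h3, zero_smul]
    · exact absurd h3 (hly z)
  have hfe : ∀ N, Geproci.hf (idl f Finset.univ) N = Module.finrank K (evs y N) := by
    intro N
    unfold Geproci.hf evs
    apply finrank_map_eq_of_ker
    intro v hv
    have hv' : v.IsHomogeneous N := (mem_homogeneousSubmodule _ _).mp hv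
    change Ideal.Quotient.mk _ v = 0 ↔ _
    rw [Ideal.Quotient.eq_zero_iff_mem, hmem]
    constructor
    · intro h
      funext z
      have := h z 1
      rw [one_smul] at this
      simpa [aeval_eq_eval] using this
    · intro h z a
      have := congrFun h z
      have h3 : eval (y z) v = 0 := by simpa [aeval_eq_eval] using this
      rw [eval_smul_of_homog v N hv', h3, mul_zero]
  have hsum : ∀ N, ∑ t ∈ Finset.range (N + 1), Geproci.hf (idl Y Finset.univ) t =
      Module.finrank K (evs y N) := by
    intro N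
    rw [hYi, sum_hf_one f d hd Finset.univ l hl1 hreg N, hfe]
  have hser := hf_series_full Y e hYe he1 hFull
  have hpr : ∏ i, ∑ j ∈ Finset.range (e i), (Polynomial.X : Polynomial ℤ) ^ j =
      ∏ i, ∑ j ∈ Finset.range (d i), (Polynomial.X : Polynomial ℤ) ^ j := by
    rw [Fin.prod_univ_succ]
    simp [he]
  rw [hpr] at hser
  obtain ⟨ht1, ht0, hth⟩ := top_coeff d hd2 (s+1) (by omega)
  have h2 : Geproci.hf (idl Y Finset.univ) (s+2) = 1 := by
    have := hser (s+2)
    rw [ht1] at this
    exact_mod_cast this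
  have h1 : Geproci.hf (idl Y Finset.univ) (s+1) = m := by
    have := hser (s+1)
    rw [ht0] at this
    exact_mod_cast this
  have h3 : ∀ t, s + 2 < t → Geproci.hf (idl Y Finset.univ) t = 0 := by
    intro t ht
    have := hser t
    rw [hth t (by omega)] at this
    exact_mod_cast this
  have hstab : ∀ k, Module.finrank K (evs y (s+2+k)) = Module.finrank K (evs y (s+2)) := by
    intro k
    induction k with
    | zero => rfl
    | succ k ih =>
      rw [← ih, ← hsum, ← hsum, ← add_assoc, Finset.sum_range_succ _ (s+2+k+1), h3 _ (by omega),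
        add_zero]
  have htop : Module.finrank K (evs y (s+2)) = Fintype.card ι := by
    rw [← hstab (Fintype.card ι), evs_top y hy _ (by omega), finrank_top,
      Module.finrank_fintype_fun_eq_card]
  have e2 := hsum (s+2)
  have e1 := hsum (s+1)
  have e0 := hsum s
  rw [Finset.sum_range_succ, h2] at e2
  rw [htop] at e2
  have e1' := e1
  rw [Finset.sum_range_succ, h1] at e1'
  constructor
  · rw [← e1]; exact e2
  · rw [← e0, ← e2, show s + 2 = s + 1 + 1 by ring, Finset.sum_range_succ _ (s+1), h1]
    ring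

end Geproci
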