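import Pool.Agent.Work.MP_efd9e3_ag.Fl.Ann
import Pool.Agent.Work.MP_efd9e3_ag.Fl.SocGen
import Pool.Agent.Work.MP_efd9e3_ag.Fl.HCod

/-! MODULE PtRel (MP_efd9e3_ag/Fl), helper69.  The relation in degree `s + 1` has full support.

`codim_evs` and `finrank_ann`: `ann (evs y (s+1))` has dimension one; let `r ≠ 0` be in it.  If `r z₀ = 0`, then
the indicator function `δ` of `z₀` is in `evs y (s+1)`.  `δ` is not in `evs y 0` (constant functions).  So by `soc_gen`
with `j = 0` there is a form `a` of degree `s + 1` with `δ * a(y) ∉ evs y (s+1)`;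
but `δ * a(y) = a(y z₀) • δ`, contradiction. -/

set_option autoImplicit false

open MvPolynomial

namespace Geproci

variable {K : Type*} [Field K] {ι : Type*}

theorem exists_rel [IsAlgClosed K] [Fintype ι] [Nonempty ι] {m : ℕ} (hm : 1 ≤ m)
    (y : ι → Fin (m+1) → K) (hy : Indep y)
    (f : Fin m → MvPolynomial (Fin (m+1)) K) (d : Fin m → ℕ) (hd : ∀ i, (f i).IsHomogeneous (d i))
    (hd2 : ∀ i, 2 ≤ d i)
    (hf : (Ideal.span (Set.range f) : Set (MvPolynomial (Fin (m+1)) K)) = vanish y)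
    (s : ℕ) (hs : s + 2 + m = ∑ i, d i) :
    ∃ r ∈ ann (evs y (s+1)), ∀ z, r z ≠ 0 := by
  classical
  obtain ⟨h1, h0⟩ := codim_evs y hy f d hd hd2 hf s hs
  have hfr : Module.finrank K (ann (evs y (s+1))) = 1 := by
    have := finrank_ann (evs y (s+1))
    omega
  obtain ⟨⟨r, hr⟩, hr0⟩ := Module.finrank_pos_iff_exists_ne_zero.1 (by rw [hfr]; norm_num :
    0 < Module.finrank K (ann (evs y (s+1))))
  have hr0' : r ≠ 0 := fun h => hr0 (Subtype.ext h)
  refine ⟨r, hr, fun z₀ hz₀ => ?_⟩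
  have hδ : (Pi.single z₀ 1 : ι → K) ∈ evs y (s+1) := by
    apply mem_of_ann
    intro r' hr'
    obtain ⟨γ, hγ⟩ := rel_unique _ h1 r hr hr0' r' hr'
    refine Finset.sum_eq_zero fun z _ => ?_
    by_cases h : z = z₀
    · rw [h, hγ, hz₀, mul_zero, zero_mul]
    · rw [Pi.single_eq_of_ne h, mul_zero]
  have hδ0 : (Pi.single z₀ 1 : ι → K) ∉ evs y 0 := by
    intro h
    obtain ⟨q, hq, hqF⟩ := (mem_evs _ _ _).1 h
    rw [← totalDegree_zero_iff_isHomogeneous, totalDegree_eq_zero_iff_eq_C] at hq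
    have hcard : 1 < Fintype.card ι := by omega
    obtain ⟨z₁, hz₁⟩ := Fintype.exists_ne_of_one_lt_card hcard z₀
    have e0 := hqF z₀
    have e1 := hqF z₁
    rw [hq, eval_C, Pi.single_eq_same] at e0
    rw [hq, eval_C, Pi.single_eq_of_ne hz₁, e0] at e1
    exact one_ne_zero e1
  obtain ⟨t, a, -, hna, ht⟩ := soc_gen y hy f d hd (fun i => le_trans (by norm_num) (hd2 i)) hf 0
    (Pi.single z₀ 1) hδ0
  have hts : t + 0 = s + 1 := by omega
  rw [hts] at hna
  apply hna
  have : (fun z => (Pi.single z₀ 1 : ι → K) z * eval (y z) a) =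
      eval (y z₀) a • (Pi.single z₀ 1 : ι → K) := by
    funext z
    by_cases h : z = z₀
    · subst h
      rw [Pi.smul_apply, Pi.single_eq_same, smul_eq_mul, mul_comm]
    · rw [Pi.smul_apply, Pi.single_eq_of_ne h, zero_mul, smul_zero]
  rw [this]
  exact Submodule.smul_mem _ _ hδ

end Geproci
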