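import Pool.Agent.Work.MP_efd9e3_ag.Fl.Theta
import Pool.Agent.Work.MP_efd9e3_ag.Fl.RelExt

/-! MODULE SysTop (MP_efd9e3_ag/Fl), helper69.  The polynomials `c` of `exists_cof` are a system on `K^{n+1}`
(degree `s+1`). -/

set_option autoImplicit false

open MvPolynomial

namespace Geproci

variable {K : Type*} [Field K] {n : ℕ} {ι : Type*}

theorem sys_top [CharZero K] [Fintype ι] (hn : 1 ≤ n) (z : ι → Fin (n+1) → K)
    (hsp : Submodule.span K (Set.range z) = ⊤) (s : ℕ)
    (c : ι → MvPolynomial (Fin (n+1)) K)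
    (h : ∀ (p : Fin (n+1) → K) (q : MvPolynomial (Fin n) K), q.IsHomogeneous (s+1) →
      ∑ i, eval p (c i) * eval (proj p (z i)) q = 0)
    (g : MvPolynomial (Fin (n+1)) K)
    (hg : ∀ p : Fin (n+1) → K, eval p g ≠ 0 → p (Fin.last n) ≠ 0 ∧
      Module.finrank K (evs (fun i => proj p (z i)) (s+1)) + 1 = Fintype.card ι ∧
      Module.finrank K (evs (fun i => proj p (z i)) s) + n = Fintype.card ι)
    (p₀ : Fin (n+1) → K) (hgp : eval p₀ g ≠ 0) (hc : ∀ i, eval p₀ (c i) ≠ 0) :
    Sys (s+1) Finset.univ z c := by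
  have hg0 : g ≠ 0 := by
    rintro rfl
    exact hgp (map_zero _)
  have hci : ∀ i, c i ≠ 0 := by
    intro i h0
    apply hc i
    rw [h0, map_zero]
  obtain ⟨hp0, hf1, hf0⟩ := hg p₀ hgp
  refine ⟨?_, fun i _ => hci i, ?_, ?_, ?_⟩
  · rw [Finset.coe_univ, Set.image_univ, hsp]
  · refine rel_ext (by omega) (s+1) Finset.univ z c (X (Fin.last n)) (X_ne_zero _) ?_
    intro lam p hlp hp
    rw [eval_X] at hp
    have h1 : ∀ v : Fin (n+1) → K, p (Fin.last n) * ∑ k, lam k * v k =
        ∑ k : Fin n, lam k.castSucc * proj p v k := by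
      intro v
      rw [Fin.sum_univ_castSucc] at hlp
      have h2 : ∑ k : Fin n, lam k.castSucc * proj p v k =
          p (Fin.last n) * (∑ k : Fin n, lam k.castSucc * v k.castSucc) -
          v (Fin.last n) * ∑ k : Fin n, lam k.castSucc * p k.castSucc := by
        rw [Finset.mul_sum, Finset.mul_sum, ← Finset.sum_sub_distrib]
        refine Finset.sum_congr rfl fun k _ => ?_
        rw [proj]; ring
      rw [h2, Fin.sum_univ_castSucc]
      linear_combination v (Fin.last n) * hlp
    have h3 : p (Fin.last n) ^ (s+1) * ∑ i, eval p (c i) * (∑ k, lam k * z i k) ^ (s+1) = 0 := by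
      have hq : (linf (fun k : Fin n => lam k.castSucc) ^ (s+1)).IsHomogeneous (s+1) := by
        have := (linf_hom (fun k : Fin n => lam k.castSucc)).pow (s+1)
        rwa [one_mul] at this
      rw [← h p _ hq, Finset.mul_sum]
      refine Finset.sum_congr rfl fun i _ => ?_
      rw [map_pow, eval_linf, ← h1 (z i)]
      ring
    exact (mul_eq_zero.1 h3).resolve_left (pow_ne_zero _ hp)
  · intro a ha i _
    exact no_const hn z hsp s c h p₀ hp0 hc hf1 hf0 a ha i
  · intro _ t ht
    set L : MvPolynomial (Fin (n+1)) K :=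
      ∑ i, C (t i) * dirP (z i) (c i) * ∏ i' ∈ Finset.univ.erase i, c i' with hL
    have hz : g * (∏ i, c i) * L = 0 := by
      apply MvPolynomial.funext
      intro p
      rw [map_zero, map_mul, map_mul]
      by_cases hp : eval p g = 0
      · rw [hp, zero_mul, zero_mul]
      by_cases hcp : ∀ i, eval p (c i) ≠ 0
      · obtain ⟨h1, h2, h3⟩ := hg p hp
        obtain ⟨θ, hθ⟩ := theta_lin z hsp s c h p h1 hcp h2 h3
        have h4 : eval p L = 0 := by
          have h5 : ∀ i, eval p (C (t i) * dirP (z i) (c i) * ∏ i' ∈ Finset.univ.erase i, c i') =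
              (t i * ∑ k, θ k * z i k) * ∏ i', eval p (c i') := by
            intro i
            rw [map_mul, map_mul, eval_C, hθ, map_prod, ← Finset.mul_prod_erase Finset.univ
              (fun i' => eval p (c i')) (Finset.mem_univ i)]
            ring
          rw [hL, map_sum]
          simp only [h5]
          rw [← Finset.sum_mul]
          have h6 : ∑ i, t i * ∑ k, θ k * z i k = ∑ k, θ k * (∑ i, t i • z i) k := by
            simp only [Finset.mul_sum, Finset.sum_apply, Pi.smul_apply, smul_eq_mul]
            rw [Finset.sum_comm]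
            refine Finset.sum_congr rfl fun k _ => Finset.sum_congr rfl fun i _ => by ring
          rw [h6, ht]
          simp
        rw [h4, mul_zero]
      · push Not at hcp
        obtain ⟨i, hi⟩ := hcp
        rw [map_prod, Finset.prod_eq_zero (Finset.mem_univ i) hi, mul_zero, zero_mul]
    have hprod : (∏ i, c i) ≠ 0 := Finset.prod_ne_zero_iff.2 fun i _ => hci i
    exact (mul_eq_zero.1 hz).resolve_left (mul_ne_zero hg0 hprod)

end Geproci
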