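import Pool.Agent.Work.MP_efd9e3_ag.Fl.DirP

/-! MODULE Ann (MP_efd9e3_ag/Fl), helper69.  Linear algebra of relations. -/

set_option autoImplicit false

open MvPolynomial

namespace Geproci

variable {K : Type*} [Field K] {n : ℕ} {ι : Type*}

/-- the relations between the functions in `E` -/
def ann [Fintype ι] (E : Submodule K (ι → K)) : Submodule K (ι → K) where
  carrier := {r | ∀ F ∈ E, ∑ z, r z * F z = 0}
  add_mem' := by
    intro a b ha hb F hF
    have h1 := ha F hF
    have h2 := hb F hF
    simp only [Pi.add_apply, add_mul, Finset.sum_add_distrib, h1, h2, add_zero]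
  zero_mem' := by
    intro F hF
    simp
  smul_mem' := by
    intro c a ha F hF
    have h1 := ha F hF
    simp only [Pi.smul_apply, smul_eq_mul, mul_assoc, ← Finset.mul_sum, h1, mul_zero]

theorem mem_ann [Fintype ι] (E : Submodule K (ι → K)) (r : ι → K) :
    r ∈ ann E ↔ ∀ F ∈ E, ∑ z, r z * F z = 0 := Iff.rfl

theorem mem_ann_evs [Fintype ι] (y : ι → Fin n → K) (t : ℕ) (r : ι → K) :
    r ∈ ann (evs y t) ↔
      ∀ q : MvPolynomial (Fin n) K, q.IsHomogeneous t → ∑ z, r z * eval (y z) q = 0 := by
  rw [mem_ann]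
  constructor
  · intro h q hq
    exact h (fun z => eval (y z) q) ((mem_evs _ _ _).2 ⟨q, hq, fun _ => rfl⟩)
  · intro h F hF
    obtain ⟨q, hq, hqF⟩ := (mem_evs _ _ _).1 hF
    have := h q hq
    simpa only [hqF] using this

theorem finrank_ann [Fintype ι] (E : Submodule K (ι → K)) :
    Module.finrank K E + Module.finrank K (ann E) = Fintype.card ι := by
  classical
  have h1 := Subspace.finrank_add_finrank_dualAnnihilator_eq E
  rw [Module.finrank_fintype_fun_eq_card] at h1
  rw [← h1]
  congr 1
  have h2 : E.dualAnnihilator = (ann E).map (dotProductEquiv K ι).toLinearMap := by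
    ext f
    rw [Submodule.mem_dualAnnihilator, Submodule.mem_map]
    constructor
    · intro h
      refine ⟨(dotProductEquiv K ι).symm f, ?_, by simp⟩
      rw [mem_ann]
      intro F hF
      have h3 := h F hF
      rw [← (dotProductEquiv K ι).apply_symm_apply f] at h3
      exact h3
    · rintro ⟨r, hr, rfl⟩ F hF
      exact hr F hF
  rw [h2]
  exact (LinearEquiv.finrank_map_eq (dotProductEquiv K ι) (ann E)).symm

theorem mem_of_ann [Fintype ι] (E : Submodule K (ι → K)) (F : ι → K)
    (h : ∀ r ∈ ann E, ∑ z, r z * F z = 0) : F ∈ E := by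
  have h1 : E ≤ ann (ann E) := by
    intro G hG r hr
    have := hr G hG
    simpa only [mul_comm] using this
  have h2 : E = ann (ann E) := by
    apply Submodule.eq_of_le_of_finrank_eq h1
    have h3 := finrank_ann E
    have h4 := finrank_ann (ann E)
    omega
  rw [h2]
  intro r hr
  have := h r hr
  simpa only [mul_comm] using this

theorem rel_linear [Fintype ι] (y : ι → Fin n → K) (hsp : Submodule.span K (Set.range y) = ⊤)
    (t : ℕ) (r : ι → K) (hr : r ∈ ann (evs y (t+1))) (hr0 : ∀ z, r z ≠ 0)
    (hfr : Module.finrank K (evs y t) + n = Fintype.card ι) (r' : ι → K) (hr' : r' ∈ ann (evs y t)) :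
    ∃ θ : Fin n → K, ∀ z, r' z = (∑ k, θ k * y z k) * r z := by
  let Φ : (Fin n → K) →ₗ[K] (ι → K) :=
    { toFun := fun θ z => (∑ k, θ k * y z k) * r z
      map_add' := by
        intro a b
        funext z
        simp only [Pi.add_apply, add_mul, Finset.sum_add_distrib]
      map_smul' := by
        intro a b
        funext z
        simp only [Pi.smul_apply, smul_eq_mul, mul_assoc, ← Finset.mul_sum, RingHom.id_apply] }
  have hinj : Function.Injective Φ := by
    rw [← LinearMap.ker_eq_bot, LinearMap.ker_eq_bot']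
    intro θ hθ
    have h1 : ∀ z, ∑ k, θ k * y z k = 0 := fun z => by
      have := congrFun hθ z
      exact (mul_eq_zero.1 this).resolve_right (hr0 z)
    let L : (Fin n → K) →ₗ[K] K := ∑ k, θ k • LinearMap.proj k
    have hL : ∀ v, L v = ∑ k, θ k * v k := by
      intro v
      simp [L, LinearMap.sum_apply]
    have hL0 : L = 0 := by
      refine LinearMap.ext_on hsp ?_
      rintro _ ⟨z, rfl⟩
      rw [hL, h1, LinearMap.zero_apply]
    funext k
    have h2 := hL (Pi.single k 1)
    rw [hL0, LinearMap.zero_apply, Finset.sum_eq_single k] at h2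
    · rw [Pi.single_eq_same, mul_one] at h2
      exact h2.symm
    · intro b _ hb
      rw [Pi.single_eq_of_ne hb, mul_zero]
    · simp
  have hle : LinearMap.range Φ ≤ ann (evs y t) := by
    rintro _ ⟨θ, rfl⟩
    rw [mem_ann_evs]
    intro q hq
    rw [mem_ann_evs] at hr
    have h1 := hr (q * linf θ) (hq.mul (linf_hom θ))
    rw [← h1]
    refine Finset.sum_congr rfl fun z _ => ?_
    rw [map_mul, eval_linf]
    show (∑ k, θ k * y z k) * r z * _ = _
    ring
  have heq : LinearMap.range Φ = ann (evs y t) := by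
    apply Submodule.eq_of_le_of_finrank_eq hle
    rw [LinearMap.finrank_range_of_inj hinj, Module.finrank_fintype_fun_eq_card, Fintype.card_fin]
    have := finrank_ann (evs y t)
    omega
  rw [← heq] at hr'
  obtain ⟨θ, hθ⟩ := hr'
  exact ⟨θ, fun z => (congrFun hθ z).symm⟩

theorem rel_unique [Fintype ι] (E : Submodule K (ι → K))
    (hfr : Module.finrank K E + 1 = Fintype.card ι) (r : ι → K) (hr : r ∈ ann E) (hr0 : r ≠ 0)
    (r' : ι → K) (hr' : r' ∈ ann E) : ∃ γ : K, ∀ z, r' z = γ * r z := by
  have h1 : Module.finrank K (ann E) = 1 := by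
    have := finrank_ann E
    omega
  have h2 : (⟨r, hr⟩ : ann E) ≠ 0 := by
    intro h
    exact hr0 (congrArg Subtype.val h)
  obtain ⟨γ, hγ⟩ := (finrank_eq_one_iff_of_nonzero' _ h2).1 h1 ⟨r', hr'⟩
  exact ⟨γ, fun z => (congrFun (congrArg Subtype.val hγ) z).symm⟩

end Geproci
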