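import Pool.Agent.Work.MP_efd9e3_ag.Fl.Ann
import Pool.Agent.Work.MP_efd9e3_ag.Generic

/-! MODULE Cof (MP_efd9e3_ag/Fl), helper69.  The relation in degree `s` is given by polynomials in the centre `p`.
-/

set_option autoImplicit false

open MvPolynomial

namespace Geproci

variable {K : Type*} [Field K] {n : ℕ} {ι : Type*}

/-- the coordinates of `proj p v` as polynomials in `p` -/
private noncomputable def CofY (v : Fin (n+1) → K) (k : Fin n) : MvPolynomial (Fin (n+1)) K :=
  X (Fin.last n) * C (v k.castSucc) - C (v (Fin.last n)) * X k.castSucc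

private theorem Cof_eval (p v : Fin (n+1) → K) (q : MvPolynomial (Fin n) K) :
    eval p (aeval (CofY v) q) = eval (proj p v) q := by
  have h1 : ((aeval p : MvPolynomial (Fin (n+1)) K →ₐ[K] K).comp (aeval (CofY v))) =
      (aeval (proj p v) : MvPolynomial (Fin n) K →ₐ[K] K) := by
    apply MvPolynomial.algHom_ext
    intro k
    rw [AlgHom.comp_apply, aeval_X, aeval_X, aeval_eq_eval]
    simp [CofY, proj]
  have h2 := congrArg (fun f : MvPolynomial (Fin n) K →ₐ[K] K => f q) h1
  simp only [AlgHom.comp_apply] at h2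
  rwa [aeval_eq_eval, aeval_eq_eval] at h2

private theorem Cof_adj {R : Type*} [CommRing R] [Fintype ι] [DecidableEq ι] (A : Matrix ι ι R) (z₁ : ι)
    (F : ι → R) : ∑ i, A.adjugate i z₁ * F i = (A.updateRow z₁ F).det := by
  have h1 := congrFun (congrFun (Matrix.mul_adjugate (A.updateRow z₁ F)) z₁) z₁
  rw [Matrix.smul_apply, Matrix.one_apply_eq, smul_eq_mul, mul_one, Matrix.mul_apply] at h1
  rw [← h1]
  refine Finset.sum_congr rfl fun i _ => ?_
  rw [Matrix.updateRow_self, Matrix.adjugate_apply, Matrix.adjugate_apply, Matrix.updateRow_idem,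
    mul_comm]

theorem exists_cof [Fintype ι] (z : ι → Fin (n+1) → K) (s : ℕ) (p₀ : Fin (n+1) → K) (r : ι → K)
    (hr0 : ∀ i, r i ≠ 0) (hr : r ∈ ann (evs (fun i => proj p₀ (z i)) s))
    (hfr : Module.finrank K (evs (fun i => proj p₀ (z i)) s) + 1 = Fintype.card ι)
    (hmax : ∀ p : Fin (n+1) → K, Module.finrank K (evs (fun i => proj p (z i)) s) ≤
      Module.finrank K (evs (fun i => proj p₀ (z i)) s)) :
    ∃ c : ι → MvPolynomial (Fin (n+1)) K, (∀ i, eval p₀ (c i) ≠ 0) ∧
      ∀ (p : Fin (n+1) → K) (q : MvPolynomial (Fin n) K), q.IsHomogeneous s →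
        ∑ i, eval p (c i) * eval (proj p (z i)) q = 0 := by
  classical
  set E₀ := evs (fun i => proj p₀ (z i)) s with hE₀
  have hcard : 0 < Fintype.card ι := by omega
  obtain ⟨z₁⟩ : Nonempty ι := Fintype.card_pos_iff.1 hcard
  let b := Module.finBasis K E₀
  have hb : ∀ j, ∃ q : MvPolynomial (Fin n) K, q.IsHomogeneous s ∧
      ∀ i, eval (proj p₀ (z i)) q = (b j : ι → K) i := fun j => (mem_evs _ _ _).1 (b j).2
  choose q hq hqb using hb
  have hce : Fintype.card {j : ι // j ≠ z₁} = Fintype.card (Fin (Module.finrank K E₀)) := by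
    rw [Fintype.card_fin, Fintype.card_subtype_compl, Fintype.card_subtype_eq]
    omega
  let e : {j : ι // j ≠ z₁} ≃ Fin (Module.finrank K E₀) := Fintype.equivOfCardEq hce
  let A : Matrix ι ι (MvPolynomial (Fin (n+1)) K) := fun j i =>
    if h : j ≠ z₁ then aeval (CofY (z i)) (q (e ⟨j, h⟩)) else 0
  let c : ι → MvPolynomial (Fin (n+1)) K := fun i => A.adjugate i z₁
  have hsum : ∀ (p : Fin (n+1) → K) (F : ι → K),
      ∑ i, eval p (c i) * F i = ((A.map (eval p)).updateRow z₁ F).det := by
    intro p F
    rw [← Cof_adj]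
    refine Finset.sum_congr rfl fun i _ => ?_
    have : (A.map (eval p)).adjugate = A.adjugate.map (eval p) := by
      have := RingHom.map_adjugate (eval p) A
      exact this.symm
    rw [this]
    rfl
  have hrow : ∀ p : Fin (n+1) → K, ∀ (j : ι) (h : j ≠ z₁) (F : ι → K),
      ((A.map (eval p)).updateRow z₁ F) j = fun i => eval (proj p (z i)) (q (e ⟨j, h⟩)) := by
    intro p j h F
    funext i
    rw [Matrix.updateRow_ne h, Matrix.map_apply]
    show eval p (if h : j ≠ z₁ then aeval (CofY (z i)) (q (e ⟨j, h⟩)) else 0) = _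
    rw [dif_pos h, Cof_eval]
  have hrel : ∀ (p : Fin (n+1) → K) (Q : MvPolynomial (Fin n) K), Q.IsHomogeneous s →
        ∑ i, eval p (c i) * eval (proj p (z i)) Q = 0 := by
    intro p Q hQ
    rw [hsum p fun i => eval (proj p (z i)) Q]
    by_contra hdet
    set M := (A.map (eval p)).updateRow z₁ (fun i => eval (proj p (z i)) Q) with hM
    have hunit : IsUnit M := (Matrix.isUnit_iff_isUnit_det M).2 (isUnit_iff_ne_zero.2 hdet)
    have hli : LinearIndependent K M.row := Matrix.linearIndependent_rows_iff_isUnit.2 hunit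
    have hmem : ∀ j, M.row j ∈ evs (fun i => proj p (z i)) s := by
      intro j
      rw [mem_evs]
      by_cases h : j = z₁
      · refine ⟨Q, hQ, fun i => ?_⟩
        subst h
        show _ = M j i
        rw [hM, Matrix.updateRow_self]
      · refine ⟨q (e ⟨j, h⟩), hq _, fun i => ?_⟩
        show _ = M j i
        rw [hM, hrow p j h]
    have hli' : LinearIndependent K (fun j => (⟨M.row j, hmem j⟩ :
        evs (fun i => proj p (z i)) s)) := by
      rw [← LinearMap.linearIndependent_iff (Submodule.subtype _) (by simp)]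
      exact hli
    have h1 := hli'.fintype_card_le_finrank
    have h2 := hmax p
    omega
  have hann : (fun i => eval p₀ (c i)) ∈ ann E₀ := by
    intro F hF
    obtain ⟨Q, hQ, hQF⟩ := (mem_evs _ _ _).1 hF
    have := hrel p₀ Q hQ
    simpa only [hQF] using this
  have hr00 : r ≠ 0 := fun h => hr0 z₁ (by rw [h]; rfl)
  obtain ⟨γ, hγ⟩ := rel_unique E₀ hfr r hr hr00 _ hann
  have hγ0 : γ ≠ 0 := by
    rintro rfl
    have hE : E₀ ≠ ⊤ := by
      intro h
      rw [h, finrank_top, Module.finrank_fintype_fun_eq_card] at hfr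
      omega
    obtain ⟨F, hF⟩ : ∃ F, F ∉ E₀ := by
      by_contra hcon
      push Not at hcon
      exact hE (Submodule.eq_top_iff'.2 hcon)
    have hdet : ((A.map (eval p₀)).updateRow z₁ F).det = 0 := by
      rw [← hsum]
      refine Finset.sum_eq_zero fun i _ => ?_
      have := hγ i
      simp only [zero_mul] at this
      rw [this, zero_mul]
    set M := (A.map (eval p₀)).updateRow z₁ F with hM
    have hle : E₀ ≤ Submodule.span K (Set.range M.row) := by
      intro G hG
      have h1 : (⟨G, hG⟩ : E₀) ∈ Submodule.span K (Set.range b) := by rw [b.span_eq]; trivial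
      have h2 : (Submodule.subtype E₀) ⟨G, hG⟩ ∈
          (Submodule.span K (Set.range b)).map (Submodule.subtype E₀) :=
        Submodule.mem_map_of_mem h1
      rw [Submodule.map_span] at h2
      refine Submodule.span_mono ?_ h2
      rintro _ ⟨_, ⟨j, rfl⟩, rfl⟩
      refine ⟨(e.symm j).1, ?_⟩
      have h3 : M.row (e.symm j).1 = fun i => eval (proj p₀ (z i)) (q (e ⟨(e.symm j).1, (e.symm j).2⟩)) :=
        hrow p₀ _ (e.symm j).2 F
      rw [h3]
      funext i
      rw [Subtype.coe_eta, Equiv.apply_symm_apply, hqb]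
      rfl
    have hFm : F ∈ Submodule.span K (Set.range M.row) := by
      refine Submodule.subset_span ⟨z₁, ?_⟩
      show M z₁ = F
      rw [hM, Matrix.updateRow_self]
    have htop : ⊤ ≤ Submodule.span K (Set.range M.row) := by
      have hlt : E₀ < Submodule.span K (Set.range M.row) :=
        lt_of_le_of_ne hle fun h => hF (h ▸ hFm)
      have h4 := Submodule.finrank_lt_finrank_of_lt hlt
      have h5 : Submodule.span K (Set.range M.row) = ⊤ := by
        apply Submodule.eq_top_of_finrank_eq
        refine le_antisymm (Submodule.finrank_le _) ?_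
        rw [Module.finrank_fintype_fun_eq_card]
        omega
      rw [h5]
    have hli := linearIndependent_of_top_le_span_of_card_eq_finrank htop
      (by rw [Module.finrank_fintype_fun_eq_card])
    have hunit := Matrix.linearIndependent_rows_iff_isUnit.1 hli
    rw [Matrix.isUnit_iff_isUnit_det, hdet] at hunit
    exact not_isUnit_zero hunit
  refine ⟨c, fun i => ?_, hrel⟩
  have := hγ i
  rw [this]
  exact mul_ne_zero hγ0 (hr0 i)

end Geproci
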