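import Pool.Agent.Work.MP_efd9e3_ag.Defs

/-! MP_efd9e3_ag, part Fl (planes with many points): definitions.  The plan is in the docstring of `Results/MP_efd9e3_ag/RichPlane.lean`. -/

set_option autoImplicit false

open MvPolynomial

namespace Geproci

variable {K : Type*} [Field K] {N : ℕ} {ι : Type*}

/-- the derivative of `c` in the constant direction `v` -/
noncomputable def dirP (v : Fin N → K) (c : MvPolynomial (Fin N) K) : MvPolynomial (Fin N) K :=
  ∑ k, C (v k) * pderiv k c

/-- the linear form with coefficients `l` -/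
noncomputable def linf (l : Fin N → K) : MvPolynomial (Fin N) K :=
  ∑ k, C (l k) * X k

/-- composition of the polynomial `c` with the linear map `φ` -/
noncomputable def compL {M : ℕ} (φ : (Fin N → K) →ₗ[K] (Fin M → K)) :
    MvPolynomial (Fin M) K →ₐ[K] MvPolynomial (Fin N) K :=
  aeval fun k => ∑ j, C (φ (Pi.single j 1) k) * X j

/-- A system of relations: `T` is the finite set of points, `y z` the vector of the point `z`, `c z` its
coefficient, a polynomial in the centre `p`. -/
structure Sys (s : ℕ) (T : Finset ι) (y : ι → Fin N → K) (c : ι → MvPolynomial (Fin N) K) : Prop where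
  span : Submodule.span K (y '' (T : Set ι)) = ⊤
  ne : ∀ z ∈ T, c z ≠ 0
  rel : ∀ lam p : Fin N → K, ∑ k, lam k * p k = 0 →
    ∑ z ∈ T, eval p (c z) * (∑ k, lam k * y z k) ^ s = 0
  ind : ∀ a : ι → K, (∀ lam : Fin N → K, ∑ z ∈ T, a z * (∑ k, lam k * y z k) ^ s = 0) →
    ∀ z ∈ T, a z = 0
  lin : ∀ [DecidableEq ι] (t : ι → K), ∑ z ∈ T, t z • y z = 0 →
    ∑ z ∈ T, C (t z) * dirP (y z) (c z) * ∏ z' ∈ T.erase z, c z' = 0

end Geproci
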