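import Pool.Agent.Work.MP_efd9e3_ag.Fl.Defs

/-! MODULE DirP (MP_efd9e3_ag/Fl), helper69.  Elementary facts on the directional derivative `dirP v c`, the linear
form `linf l` and the composition `compL φ c` with a linear map. -/

set_option autoImplicit false

open MvPolynomial

namespace Geproci

variable {K : Type*} [Field K] {N M : ℕ} {ι : Type*}

theorem dirP_mul (v : Fin N → K) (a b : MvPolynomial (Fin N) K) :
    dirP v (a * b) = dirP v a * b + a * dirP v b := by
  unfold dirP
  rw [Finset.sum_mul, Finset.mul_sum, ← Finset.sum_add_distrib]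
  refine Finset.sum_congr rfl fun k _ => ?_
  rw [Derivation.leibniz, smul_eq_mul, smul_eq_mul]
  ring

theorem dirP_C (v : Fin N → K) (a : K) : dirP v (C a) = 0 := by
  unfold dirP
  exact Finset.sum_eq_zero fun k _ => by rw [pderiv_C, mul_zero]

theorem dirP_zero_left (c : MvPolynomial (Fin N) K) : dirP 0 c = 0 := by
  unfold dirP
  exact Finset.sum_eq_zero fun k _ => by rw [Pi.zero_apply, C_0, zero_mul]

theorem sum_dirP (T : Finset ι) (t : ι → K) (y : ι → Fin N → K) (c : MvPolynomial (Fin N) K) :
    ∑ z ∈ T, C (t z) * dirP (y z) c = dirP (∑ z ∈ T, t z • y z) c := by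
  unfold dirP
  simp only [Finset.mul_sum]
  rw [Finset.sum_comm]
  refine Finset.sum_congr rfl fun k _ => ?_
  rw [Finset.sum_apply, map_sum, Finset.sum_mul]
  refine Finset.sum_congr rfl fun z _ => ?_
  rw [Pi.smul_apply, smul_eq_mul, C_mul, mul_assoc]

theorem eval_dirP (v p : Fin N → K) (c : MvPolynomial (Fin N) K) :
    eval p (dirP v c) = ∑ k, v k * eval p (pderiv k c) := by
  unfold dirP
  rw [map_sum]
  exact Finset.sum_congr rfl fun k _ => by rw [map_mul, eval_C]

theorem dirP_add (v : Fin N → K) (a b : MvPolynomial (Fin N) K) :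
    dirP v (a + b) = dirP v a + dirP v b := by
  unfold dirP
  rw [← Finset.sum_add_distrib]
  refine Finset.sum_congr rfl fun k _ => ?_
  rw [map_add, mul_add]

theorem dirP_sum {J : Type*} (s : Finset J) (v : Fin N → K) (a : J → MvPolynomial (Fin N) K) :
    dirP v (∑ j ∈ s, a j) = ∑ j ∈ s, dirP v (a j) := by
  classical
  induction s using Finset.induction_on with
  | empty => rw [Finset.sum_empty, Finset.sum_empty, ← C_0, dirP_C, C_0]
  | insert j s hj ih => rw [Finset.sum_insert hj, Finset.sum_insert hj, dirP_add, ih]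

theorem dirP_hom (v : Fin N → K) (a : MvPolynomial (Fin N) K) (t : ℕ) (ha : a.IsHomogeneous t) :
    (dirP v a).IsHomogeneous (t - 1) := by
  unfold dirP
  refine IsHomogeneous.sum _ _ _ fun k _ => ?_
  have := (isHomogeneous_C (Fin N) (v k)).mul (ha.pderiv (i := k))
  rwa [zero_add] at this

theorem dirP_degree (v : Fin N → K) (c : MvPolynomial (Fin N) K) :
    dirP v c = 0 ∨ (dirP v c).totalDegree < c.totalDegree := by
  rcases Nat.eq_zero_or_pos c.totalDegree with h | h
  · left
    rw [totalDegree_eq_zero_iff_eq_C] at h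
    rw [h, dirP_C]
  · right
    have h1 : (dirP v c).totalDegree ≤ c.totalDegree - 1 := by
      conv_lhs => rw [← sum_homogeneousComponent c, dirP_sum]
      refine totalDegree_finsetSum_le fun i hi => ?_
      have h2 := (dirP_hom v _ i (homogeneousComponent_isHomogeneous i c)).totalDegree_le
      rw [Finset.mem_range] at hi
      omega
    omega

theorem eval_linf (l x : Fin N → K) : eval x (linf l) = ∑ k, l k * x k := by
  simp [linf, map_sum]

theorem linf_hom (l : Fin N → K) : (linf l).IsHomogeneous 1 := by
  exact IsHomogeneous.sum _ _ _ fun j _ => isHomogeneous_C_mul_X _ _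

private theorem DirP_single (φ : (Fin N → K) →ₗ[K] (Fin M → K)) (v : Fin N → K) (k : Fin M) :
    φ v k = ∑ j, v j * φ (Pi.single j 1) k := by
  have : v = ∑ j, v j • (Pi.single j 1 : Fin N → K) := by
    funext i
    simp [Finset.sum_apply, Pi.single_apply]
  conv_lhs => rw [this]
  rw [map_sum, Finset.sum_apply]
  exact Finset.sum_congr rfl fun j _ => by rw [map_smul, Pi.smul_apply, smul_eq_mul]

theorem eval_compL (φ : (Fin N → K) →ₗ[K] (Fin M → K)) (c : MvPolynomial (Fin M) K) (v : Fin N → K) :
    eval v (compL φ c) = eval (φ v) c := by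
  have h1 : ∀ k, eval v (∑ j, C (φ (Pi.single j 1) k) * X j : MvPolynomial (Fin N) K) = φ v k := by
    intro k
    rw [DirP_single φ v k, map_sum]
    exact Finset.sum_congr rfl fun j _ => by rw [map_mul, eval_C, eval_X, mul_comm]
  induction c using MvPolynomial.induction_on with
  | C a => simp [compL]
  | add a b ha hb => rw [map_add, map_add, map_add, ha, hb]
  | mul_X a k ha =>
    rw [map_mul, map_mul, map_mul, ha, eval_X]
    congr 1
    rw [compL, aeval_X, h1]

theorem dirP_compL (φ : (Fin N → K) →ₗ[K] (Fin M → K)) (c : MvPolynomial (Fin M) K) (v : Fin N → K) :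
    dirP v (compL φ c) = compL φ (dirP (φ v) c) := by
  induction c using MvPolynomial.induction_on with
  | C a =>
    have h1 : compL φ (C a) = C a := by simp [compL]
    rw [h1, dirP_C, dirP_C, map_zero]
  | add a b ha hb => rw [map_add, dirP_add, dirP_add, map_add, ha, hb]
  | mul_X a k ha =>
    rw [map_mul, dirP_mul, dirP_mul, map_add, map_mul, map_mul, ha]
    congr 2
    have h1 : dirP (φ v) (X k : MvPolynomial (Fin M) K) = C (φ v k) := by
      unfold dirP
      simp [pderiv_X, Pi.single_apply]
    have h2 : ∀ j : Fin N, dirP v (X j : MvPolynomial (Fin N) K) = C (v j) := by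
      intro j
      unfold dirP
      simp [pderiv_X, Pi.single_apply]
    have h3 : compL φ (C (φ v k)) = C (φ v k) := by simp [compL]
    rw [h1, h3, compL, aeval_X, dirP_sum, DirP_single φ v k, map_sum]
    refine Finset.sum_congr rfl fun j _ => ?_
    rw [dirP_mul, dirP_C, zero_mul, zero_add, h2, ← C_mul, mul_comm]

theorem dirP_homComp (v : Fin N → K) (c : MvPolynomial (Fin N) K) (ρ : ℕ) :
    homogeneousComponent ρ (dirP v c) = dirP v (homogeneousComponent (ρ + 1) c) := by
  have h1 : ∀ i, homogeneousComponent ρ (dirP v (homogeneousComponent i c)) =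
      if i = ρ + 1 then dirP v (homogeneousComponent i c) else 0 := by
    intro i
    rcases Nat.eq_zero_or_pos i with rfl | hi
    · rw [homogeneousComponent_zero, dirP_C, map_zero, ite_self]
    · rw [homogeneousComponent_of_mem ((mem_homogeneousSubmodule _ _).2
        (dirP_hom v _ i (homogeneousComponent_isHomogeneous i c)))]
      by_cases h : i = ρ + 1
      · subst h; simp
      · rw [if_neg h, if_neg (by omega)]
  conv_lhs => rw [← sum_homogeneousComponent c, dirP_sum, map_sum]
  simp only [h1]
  rw [Finset.sum_ite_eq']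
  split_ifs with h
  · rfl
  · rw [Finset.mem_range] at h
    rw [homogeneousComponent_eq_zero _ _ (by omega), ← C_0, dirP_C, C_0]

end Geproci
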