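import Pool.Agent.Work.MP_efd9e3_ag.Main
import Pool.Agent.Work.MP_efd9e3_ag.EvsProj
import Pool.Agent.Work.MP_efd9e3_ag.Fl.Ind
import Pool.Agent.Work.MP_efd9e3_ag.Fl.PtRel
import Pool.Agent.Work.MP_efd9e3_ag.Fl.Cof
import Pool.Agent.Work.MP_efd9e3_ag.Fl.SysTop

/-! MODULE FlMain (MP_efd9e3_ag/Fl), helper69.  The main theorem: planes with many points. -/

set_option autoImplicit false

open MvPolynomial

namespace Geproci

variable {K : Type*} [Field K] {n : ℕ}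

/-- A geproci set of degrees `d` in `ℙ^{m+1}` gives a system of degree `Σ d - m - 1`. -/
theorem exists_sys [IsAlgClosed K] [CharZero K] {m : ℕ} (hm : 2 ≤ m) (Z : Finset (Fin (m+1+1) → K))
    (h0 : ∀ v ∈ Z, v ≠ 0) (hp : ∀ v ∈ Z, ∀ w ∈ Z, ∀ c : K, w = c • v → w = v)
    (hspan : Submodule.span K (Z : Set (Fin (m+1+1) → K)) = ⊤) :
    ∃ g : MvPolynomial (Fin (m+1+1)) K, g ≠ 0 ∧ ∀ p : Fin (m+1+1) → K, eval p g ≠ 0 →
      ∀ π : (Fin (m+1+1) → K) →ₗ[K] (Fin (m+1) → K), LinearMap.ker π = Submodule.span K {p} →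
      ∀ (f : Fin m → MvPolynomial (Fin (m+1)) K) (d : Fin m → ℕ),
        (∀ i, (f i).IsHomogeneous (d i)) →
        (Ideal.span (Set.range f) : Set (MvPolynomial (Fin (m+1)) K)) =
          {q | ∀ v ∈ Z, ∀ c : K, eval (c • π v) q = 0} →
        ∃ (s : ℕ) (c : Z → MvPolynomial (Fin (m+1+1)) K), s + 2 + m = ∑ i, d i ∧
          Sys (s+1) Finset.univ (fun v : Z => v.1) c := by
  classical
  have hK : Infinite K := IsAlgClosed.instInfinite
  let z : Z → Fin (m+1+1) → K := fun v => v.1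
  have hz : Indep z := by
    refine ⟨fun v => h0 v.1 v.2, fun v v' hvv' c hc => hvv' ?_⟩
    exact (Subtype.ext (hp v.1 v.2 v'.1 v'.2 c hc)).symm
  have hne : Nonempty Z := by
    by_contra hcon
    rw [nonempty_subtype, not_exists] at hcon
    have hZ : Z = ∅ := Finset.eq_empty_of_forall_notMem hcon
    rw [hZ] at hspan
    simp at hspan
  obtain ⟨g, hg0, hg⟩ := generic (by omega) z hz
  obtain ⟨g', hg0', hg'⟩ := main_aux (by omega : 1 ≤ m) Z h0 hp hspan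
  refine ⟨g * g', mul_ne_zero hg0 hg0', fun p hpg π hπ f d hd hf => ?_⟩
  rw [map_mul] at hpg
  have hpg1 := left_ne_zero_of_mul hpg
  have hpg2 := right_ne_zero_of_mul hpg
  obtain ⟨hpl, hind, hmax⟩ := hg p hpg1
  obtain ⟨hdm, -⟩ := hg' p hpg2 π hπ f d hd hf
  let y : Z → Fin (m+1) → K := fun v => π (z v)
  have hy : Indep y := main_indep p hpl π hπ z hind
  have hfy : (Ideal.span (Set.range f) : Set (MvPolynomial (Fin (m+1)) K)) = vanish y := by
    rw [hf]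
    ext q
    constructor
    · intro h v c
      exact h v.1 v.2 c
    · intro h v hv c
      exact h ⟨v, hv⟩ c
  have hsum : m * 2 ≤ ∑ i, d i := by
    calc m * 2 = ∑ _i : Fin m, 2 := by simp
      _ ≤ ∑ i, d i := Finset.sum_le_sum fun i _ => le_trans hm (hdm i)
  obtain ⟨s, hs⟩ : ∃ s, s + 2 + m = ∑ i, d i := ⟨∑ i, d i - (2 + m), by omega⟩
  have hd2 : ∀ i, 2 ≤ d i := fun i => le_trans hm (hdm i)
  obtain ⟨r, hr, hr0⟩ := exists_rel (by omega) y hy f d hd hd2 hfy s hs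
  obtain ⟨hc1, hc0⟩ := codim_evs y hy f d hd hd2 hfy s hs
  have he : ∀ t, evs y t = evs (fun i => proj p (z i)) t := fun t => evs_proj p hpl π hπ z t
  rw [he] at hr hc1 hc0
  obtain ⟨c, hcp, hc⟩ := exists_cof z (s+1) p r hr0 hr hc1 (hmax (s+1))
  have hspz : Submodule.span K (Set.range z) = ⊤ := by
    have : Set.range z = (Z : Set (Fin (m+1+1) → K)) := by
      ext v; simp [z]
    rw [this]; exact hspan
  refine ⟨s, c, hs, sys_top (by omega) z hspz s c hc g (fun p' hp' => ?_) p hpg1 hcp⟩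
  obtain ⟨h1, -, h2⟩ := hg p' hp'
  refine ⟨h1, ?_, ?_⟩
  · rw [← hc1, le_antisymm (h2 (s+1) p) (hmax (s+1) p')]
  · rw [← hc0, le_antisymm (h2 s p) (hmax s p')]

theorem planes [IsAlgClosed K] [CharZero K] (hn : 3 ≤ n) (Z : Finset (Fin (n+1) → K))
    (h0 : ∀ v ∈ Z, v ≠ 0) (hp : ∀ v ∈ Z, ∀ w ∈ Z, ∀ c : K, w = c • v → w = v)
    (hspan : Submodule.span K (Z : Set (Fin (n+1) → K)) = ⊤) :
    ∃ g : MvPolynomial (Fin (n+1)) K, g ≠ 0 ∧ ∀ p : Fin (n+1) → K, eval p g ≠ 0 →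
      ∀ π : (Fin (n+1) → K) →ₗ[K] (Fin n → K), LinearMap.ker π = Submodule.span K {p} →
      ∀ (f : Fin (n-1) → MvPolynomial (Fin n) K) (d : Fin (n-1) → ℕ),
        (∀ i, (f i).IsHomogeneous (d i)) →
        (Ideal.span (Set.range f) : Set (MvPolynomial (Fin n) K)) =
          {q | ∀ v ∈ Z, ∀ c : K, eval (c • π v) q = 0} →
        ∃ T : Finset (Fin (n+1) → K), T ⊆ Z ∧
          Module.finrank K (Submodule.span K (T : Set (Fin (n+1) → K))) = 3 ∧
          ∑ i, d i + 2 ≤ T.card + n := by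
  classical
  obtain ⟨k, rfl⟩ : ∃ k, n = k + 2 + 1 := ⟨n - 3, by omega⟩
  obtain ⟨g, hg0, hg⟩ := exists_sys (m := k + 2) (by omega) Z h0 hp hspan
  refine ⟨g, hg0, fun p hpg π hπ f d hd hf => ?_⟩
  obtain ⟨s, c, hs, hsys⟩ := hg p hpg π hπ f d hd hf
  obtain ⟨φ, T', hφ, -, hcard, hsp⟩ := sys_ind (s+1) (by omega) (k+1) Finset.univ
    (fun v : Z => (v.1 : Fin (k+1+3) → K)) c hsys
  refine ⟨T'.image fun v => v.1, ?_, ?_, ?_⟩
  · intro v hv
    obtain ⟨w, -, rfl⟩ := Finset.mem_image.1 hv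
    exact w.2
  · have h1 : ((T'.image fun v : Z => v.1 : Finset (Fin (k+2+1+1) → K)) : Set (Fin (k+2+1+1) → K)) =
        (fun v : Z => (v.1 : Fin (k+1+3) → K)) '' (T' : Set Z) := by
      rw [Finset.coe_image]
    rw [h1]
    have h2 := LinearMap.finrank_range_of_inj hφ
    rw [← hsp] at h2
    rw [show Module.finrank K (Fin 3 → K) = 3 by simp] at h2
    exact h2
  · rw [Finset.card_image_of_injective _ Subtype.val_injective]
    have h3 : ∑ i, d i = s + 2 + (k + 2) := hs.symm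
    omega

end Geproci
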