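import Pool.Agent.Work.MP_efd9e3_ag.HilbA
import Pool.Agent.Work.MP_efd9e3_ag.Bezout
import Pool.Agent.Work.MP_efd9e3_ag.SocMain
import Pool.Agent.Work.MP_efd9e3_ag.Zero

/-! MODULE HSer (MP_efd9e3_ag/Fl), helper69.  Hilbert series of a complete intersection. -/

set_option autoImplicit false

open MvPolynomial

namespace Geproci

variable {K : Type*} [Field K] {n : ℕ} {ι : Type*}

private theorem HSer_empty (X : ι → MvPolynomial (Fin n) K) : idl X ∅ = ⊥ := by
  unfold idl
  rw [Finset.coe_empty, Set.image_empty, Ideal.span_empty]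

theorem hf_series (X : ι → MvPolynomial (Fin n) K) (e : ι → ℕ) (hX : ∀ i, (X i).IsHomogeneous (e i))
    (hR : Reg X) (T : Finset ι) :
    (PowerSeries.mk fun t => (hf (idl X T) t : ℤ)) =
      (∏ i ∈ T, (1 - (PowerSeries.X : PowerSeries ℤ) ^ e i)) *
        PowerSeries.mk fun t => (hf (⊥ : Ideal (MvPolynomial (Fin n) K)) t : ℤ) := by
  classical
  induction T using Finset.induction_on with
  | empty => rw [Finset.prod_empty, one_mul, HSer_empty]
  | insert i T hi ih =>
    rw [Finset.prod_insert hi, mul_assoc, ← ih, idl_insert]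
    ext t
    rw [sub_mul, one_mul, map_sub, PowerSeries.coeff_mk, PowerSeries.coeff_mk,
      PowerSeries.coeff_X_pow_mul']
    split_ifs with h
    · obtain ⟨u, rfl⟩ := Nat.exists_eq_add_of_le' h
      have h1 := hf_step X e hX T (X i) (e i) (hX i) (hR T i hi) u
      rw [Nat.add_sub_cancel, PowerSeries.coeff_mk]
      have h2 : (hf (idl X T ⊔ Ideal.span {X i}) (u + e i) : ℤ) + (hf (idl X T) u : ℤ) =
          hf (idl X T) (u + e i) := by exact_mod_cast h1
      linarith
    · rw [hf_low X e hX T (X i) (e i) (hX i) t (by omega), sub_zero]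

theorem hf_series_full [IsAlgClosed K] (X : Fin n → MvPolynomial (Fin n) K) (e : Fin n → ℕ)
    (hX : ∀ i, (X i).IsHomogeneous (e i)) (he : ∀ i, 1 ≤ e i) (hF : Full (idl X Finset.univ)) (t : ℕ) :
    (hf (idl X Finset.univ) t : ℤ) =
      (∏ i, ∑ j ∈ Finset.range (e i), (Polynomial.X : Polynomial ℤ) ^ j).coeff t := by
  classical
  set H : PowerSeries ℤ :=
    PowerSeries.mk fun t => (hf (⊥ : Ideal (MvPolynomial (Fin n) K)) t : ℤ) with hH
  -- the variables
  set V : Fin n → MvPolynomial (Fin n) K := fun i => MvPolynomial.X i with hV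
  have hVm : ∀ q : MvPolynomial (Fin n) K, q ∈ idl V Finset.univ ↔ ∀ m ∈ q.support, ∃ i, m i ≠ 0 := by
    intro q
    have h1 : idl V Finset.univ = Ideal.span (MvPolynomial.X '' (Set.univ : Set (Fin n))) := by
      unfold idl
      rw [Finset.coe_univ]
    rw [h1, mem_ideal_span_X_image]
    simp
  have hVF : Full (idl V Finset.univ) := by
    apply full_of_zero
    intro x hx
    funext i
    have := hx (MvPolynomial.X i) (mem_idl V (Finset.mem_univ i))
    rwa [eval_X] at this
  obtain ⟨hVR, -⟩ := base_linear V (fun i => isHomogeneous_X K i) hVF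
  have hV1 := hf_series V (fun _ => 1) (fun i => isHomogeneous_X K i) hVR Finset.univ
  have hVs : (PowerSeries.mk fun t => (hf (idl V Finset.univ) t : ℤ)) = 1 := by
    ext t
    rw [PowerSeries.coeff_mk, PowerSeries.coeff_one]
    split_ifs with h
    · rw [h, hf_zero]
      · norm_num
      · rw [hVm]
        intro hcon
        obtain ⟨i, hi⟩ := hcon 0 (by
          rw [mem_support_iff, coeff_zero_one]
          exact one_ne_zero)
        exact hi rfl
    · rw [hf_eq_zero, Nat.cast_zero]
      intro q hq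
      rw [hVm]
      intro m hm
      by_contra hcon
      push Not at hcon
      have hm0 : m = 0 := Finsupp.ext hcon
      have h2 := hq (mem_support_iff.1 hm)
      rw [hm0] at h2
      simp at h2
      exact h h2.symm
  rw [hVs, Finset.prod_const, Finset.card_univ, Fintype.card_fin, pow_one] at hV1
  -- the system
  obtain ⟨hR, -⟩ := soc_main X e hX he hF
  have hX1 := hf_series X e hX hR Finset.univ
  have hgeom : ∀ d : ℕ, (1 - (PowerSeries.X : PowerSeries ℤ) ^ d) =
      (1 - PowerSeries.X) *
        ((∑ j ∈ Finset.range d, (Polynomial.X : Polynomial ℤ) ^ j : Polynomial ℤ) : PowerSeries ℤ) := by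
    intro d
    have h1 := mul_neg_geom_sum (PowerSeries.X : PowerSeries ℤ) d
    rw [← h1]
    congr 1
    induction d with
    | zero => simp
    | succ d ih =>
      rw [Finset.sum_range_succ, Finset.sum_range_succ, Polynomial.coe_add, Polynomial.coe_pow,
        Polynomial.coe_X, ← ih]
      exact mul_neg_geom_sum (PowerSeries.X : PowerSeries ℤ) d
  have hprod : ∏ i, (1 - (PowerSeries.X : PowerSeries ℤ) ^ e i) =
      (1 - PowerSeries.X) ^ n *
        ((∏ i, ∑ j ∈ Finset.range (e i), (Polynomial.X : Polynomial ℤ) ^ j : Polynomial ℤ) :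
          PowerSeries ℤ) := by
    have h1 : ((∏ i, ∑ j ∈ Finset.range (e i), (Polynomial.X : Polynomial ℤ) ^ j : Polynomial ℤ) :
          PowerSeries ℤ) = ∏ i, ((∑ j ∈ Finset.range (e i), (Polynomial.X : Polynomial ℤ) ^ j :
            Polynomial ℤ) : PowerSeries ℤ) := by
      have h2 := map_prod (Polynomial.coeToPowerSeries.ringHom (R := ℤ))
        (fun i => ∑ j ∈ Finset.range (e i), (Polynomial.X : Polynomial ℤ) ^ j) Finset.univ
      simpa only [Polynomial.coeToPowerSeries.ringHom_apply] using h2
    rw [h1]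
    calc ∏ i, (1 - (PowerSeries.X : PowerSeries ℤ) ^ e i)
        = ∏ i, ((1 - PowerSeries.X) * ((∑ j ∈ Finset.range (e i), (Polynomial.X : Polynomial ℤ) ^ j :
            Polynomial ℤ) : PowerSeries ℤ)) := Finset.prod_congr rfl fun i _ => hgeom _
      _ = _ := by
        rw [Finset.prod_mul_distrib, Finset.prod_const, Finset.card_univ, Fintype.card_fin]
  rw [hprod] at hX1
  have h3 : (PowerSeries.mk fun t => (hf (idl X Finset.univ) t : ℤ)) =
      ((∏ i, ∑ j ∈ Finset.range (e i), (Polynomial.X : Polynomial ℤ) ^ j : Polynomial ℤ) :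
          PowerSeries ℤ) := by
    rw [hX1, mul_comm ((1 - PowerSeries.X) ^ n) _, mul_assoc, ← hV1, mul_one]
  have h4 := congrArg (PowerSeries.coeff t) h3
  rw [PowerSeries.coeff_mk, Polynomial.coeff_coe] at h4
  exact h4

end Geproci
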