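import Pool.Agent.Work.MP_efd9e3_ag.Fl.Defs

/-! MODULE Lap (MP_efd9e3_ag/Fl).  A bihomogeneous polynomial killed by `Δ = ∑ ∂/∂lam_k ∂/∂p_k` is not divisible by
`q = ∑ lam_k p_k`.

Suppose `q ∣ F`.  Let `F = q ^ (b+1) * G` with `¬ q ∣ G` (finite multiplicity: `q` is not a unit, `F ≠ 0`; or by
degrees).  `totalDegree F = 2(b+1) + totalDegree G`, so `b + 1 ≤ s + ρ`.
`E₁ = ∑ X (inl k) ∂_{inl k}` and `E₂` (same with `inr`) are derivations with `E_i q = q`.  From
`E₁ F = s F`: `(b+1) q^(b+1) G + q^(b+1) E₁ G = s q^(b+1) G`, so `E₁ G = (s - b - 1) G`; in the same way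
`E₂ G = (ρ - b - 1) G`.
`∂_{inr k} F = (b+1) q^b lam_k G + q^(b+1) ∂_{inr k} G`;
`∂_{inl k} ∂_{inr k} F = (b+1) b q^(b-1) p_k lam_k G + (b+1) q^b G + (b+1) q^b lam_k ∂_{inl k} G
   + (b+1) q^b p_k ∂_{inr k} G + q^(b+1) ∂_{inl k} ∂_{inr k} G`.
Sum over `k` (`∑ lam_k p_k = q`):
`0 = Δ F = (b+1) q^b (b + N + (s-b-1) + (ρ-b-1)) G + q^(b+1) Δ G = (b+1) (N - 1 + s + ρ - (b+1)) q^b G + q^(b+1) Δ G`.
The constant `(b+1) (N - 1 + (s + ρ - (b+1)))` is a positive integer, so not zero in `K`; cancel `q^b`: `q ∣ G`,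
contradiction.  (`q ≠ 0` and `q` not a unit: `2 ≤ N`; e.g. `totalDegree q = 2`.) -/

set_option autoImplicit false

open MvPolynomial

namespace Geproci

variable {K : Type*} [Field K] {N : ℕ}

theorem lap_not_dvd [CharZero K] (hN : 2 ≤ N) (F : MvPolynomial (Fin N ⊕ Fin N) K) (hF : F ≠ 0)
    (s ρ : ℕ) (hdeg : F.totalDegree ≤ s + ρ)
    (h1 : ∑ k : Fin N, X (Sum.inl k) * pderiv (Sum.inl k) F = C (s : K) * F)
    (h2 : ∑ k : Fin N, X (Sum.inr k) * pderiv (Sum.inr k) F = C (ρ : K) * F)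
    (h3 : ∑ k : Fin N, pderiv (Sum.inl k) (pderiv (Sum.inr k) F) = 0) :
    ¬ (∑ k : Fin N, X (Sum.inl k) * X (Sum.inr k) : MvPolynomial (Fin N ⊕ Fin N) K) ∣ F := by
  classical
  intro hdvd
  set q : MvPolynomial (Fin N ⊕ Fin N) K := ∑ k : Fin N, X (Sum.inl k) * X (Sum.inr k) with hq
  have hunit : ¬ IsUnit q := by
    intro h
    have h4 := h.map (eval (0 : Fin N ⊕ Fin N → K))
    rw [hq, map_sum] at h4
    simp at h4
  have hq0 : q ≠ 0 := by
    intro h
    let i0 : Fin N := ⟨0, by omega⟩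
    have h4 := congrArg (eval (fun i : Fin N ⊕ Fin N => if i = Sum.inl i0 ∨ i = Sum.inr i0
      then (1 : K) else 0)) h
    rw [hq, map_sum, map_zero, Finset.sum_eq_single i0] at h4
    · simp at h4
    · intro j _ hj
      simp [hj]
    · simp
  obtain ⟨G, hG, hGn⟩ := (FiniteMultiplicity.of_not_isUnit hunit hF).exists_eq_pow_mul_and_not_dvd
  set m := multiplicity q F with hm
  have hm0 : m ≠ 0 := by
    intro h
    rw [h, pow_zero, one_mul] at hG
    rw [hG] at hdvd
    exact hGn hdvd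
  obtain ⟨b, hb⟩ := Nat.exists_eq_succ_of_ne_zero hm0
  rw [hb, Nat.succ_eq_add_one] at hG
  have hG0 : G ≠ 0 := by
    rintro rfl
    exact hGn (dvd_zero _)
  -- degree
  have hdq : 1 ≤ q.totalDegree := by
    by_contra hcon
    have h4 : q.totalDegree = 0 := by omega
    rw [totalDegree_eq_zero_iff_eq_C] at h4
    apply hq0
    have h5 : coeff 0 q = 0 := by
      rw [← constantCoeff_eq, hq, map_sum]
      simp
    rw [h4, h5, map_zero]
  have hbd : b + 1 ≤ s + ρ := by
    have h4 : F.totalDegree = (q ^ (b + 1)).totalDegree + G.totalDegree := by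
      rw [hG, totalDegree_mul_of_isDomain (pow_ne_zero _ hq0) hG0]
    have h5 : ∀ j : ℕ, j ≤ (q ^ j).totalDegree := by
      intro j
      induction j with
      | zero => simp
      | succ j ih =>
        rw [pow_succ, totalDegree_mul_of_isDomain (pow_ne_zero _ hq0) hq0]
        omega
    have h6 := h5 (b + 1)
    omega
  -- derivatives of q
  have dl : ∀ k, pderiv (Sum.inl k) q = X (Sum.inr k) := by
    intro k
    rw [hq, map_sum, Finset.sum_eq_single k]
    · rw [Derivation.leibniz, pderiv_X_self, pderiv_X_of_ne (by simp)]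
      simp
    · intro j _ hj
      rw [Derivation.leibniz, pderiv_X_of_ne (by simp), pderiv_X_of_ne (by simpa using hj)]
      simp
    · simp
  have dr : ∀ k, pderiv (Sum.inr k) q = X (Sum.inl k) := by
    intro k
    rw [hq, map_sum, Finset.sum_eq_single k]
    · rw [Derivation.leibniz, pderiv_X_self, pderiv_X_of_ne (by simp)]
      simp
    · intro j _ hj
      rw [Derivation.leibniz, pderiv_X_of_ne (by simpa using hj), pderiv_X_of_ne (by simp)]
      simp
    · simp
  -- Euler for G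
  have hpowl : ∀ (k : Fin N) (j : ℕ), pderiv (Sum.inl k) (q ^ (j + 1)) =
      C ((j : K) + 1) * q ^ j * X (Sum.inr k) := by
    intro k j
    rw [Derivation.leibniz_pow, dl, Nat.add_sub_cancel]
    simp only [smul_eq_mul, nsmul_eq_mul, map_add, map_natCast, map_one]
    push_cast
    ring
  have hpowr : ∀ (k : Fin N) (j : ℕ), pderiv (Sum.inr k) (q ^ (j + 1)) =
      C ((j : K) + 1) * q ^ j * X (Sum.inl k) := by
    intro k j
    rw [Derivation.leibniz_pow, dr, Nat.add_sub_cancel]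
    simp only [smul_eq_mul, nsmul_eq_mul, map_add, map_natCast, map_one]
    push_cast
    ring
  have hpowl' : ∀ (k : Fin N) (j : ℕ), pderiv (Sum.inl k) (q ^ j) * q =
      C (j : K) * q ^ j * X (Sum.inr k) := by
    intro k j
    cases j with
    | zero => simp
    | succ j =>
      rw [hpowl]
      push_cast
      ring
  have hqb : q ^ b ≠ 0 := pow_ne_zero _ hq0
  have hqb1 : q ^ (b + 1) ≠ 0 := pow_ne_zero _ hq0
  have hE1 : ∑ k : Fin N, X (Sum.inl k) * pderiv (Sum.inl k) G = C ((s : K) - b - 1) * G := by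
    apply mul_left_cancel₀ hqb1
    have h4 : ∀ k : Fin N, X (Sum.inl k) * pderiv (Sum.inl k) F =
        C ((b : K) + 1) * q ^ b * G * (X (Sum.inl k) * X (Sum.inr k)) +
          q ^ (b + 1) * (X (Sum.inl k) * pderiv (Sum.inl k) G) := by
      intro k
      rw [hG, Derivation.leibniz, hpowl]
      simp only [smul_eq_mul]
      ring
    rw [Finset.sum_congr rfl (fun k _ => h4 k), Finset.sum_add_distrib, ← Finset.mul_sum,
      ← Finset.mul_sum, ← hq, hG] at h1
    simp only [map_add, map_sub, map_one] at h1 ⊢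
    linear_combination h1
  have hE2 : ∑ k : Fin N, X (Sum.inr k) * pderiv (Sum.inr k) G = C ((ρ : K) - b - 1) * G := by
    apply mul_left_cancel₀ hqb1
    have h4 : ∀ k : Fin N, X (Sum.inr k) * pderiv (Sum.inr k) F =
        C ((b : K) + 1) * q ^ b * G * (X (Sum.inl k) * X (Sum.inr k)) +
          q ^ (b + 1) * (X (Sum.inr k) * pderiv (Sum.inr k) G) := by
      intro k
      rw [hG, Derivation.leibniz, hpowr]
      simp only [smul_eq_mul]
      ring
    rw [Finset.sum_congr rfl (fun k _ => h4 k), Finset.sum_add_distrib, ← Finset.mul_sum,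
      ← Finset.mul_sum, ← hq, hG] at h2
    simp only [map_add, map_sub, map_one] at h2 ⊢
    linear_combination h2
  -- Laplacian, multiplied by q
  have h5 : ∀ k : Fin N, q * pderiv (Sum.inl k) (pderiv (Sum.inr k) F) =
      C ((b : K) + 1) * C (b : K) * q ^ b * G * (X (Sum.inl k) * X (Sum.inr k)) +
      C ((b : K) + 1) * q ^ (b + 1) * G +
      C ((b : K) + 1) * q ^ (b + 1) * (X (Sum.inl k) * pderiv (Sum.inl k) G) +
      C ((b : K) + 1) * q ^ (b + 1) * (X (Sum.inr k) * pderiv (Sum.inr k) G) +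
      q ^ (b + 2) * pderiv (Sum.inl k) (pderiv (Sum.inr k) G) := by
    intro k
    rw [hG, Derivation.leibniz, hpowr]
    simp only [smul_eq_mul, map_add, Derivation.leibniz, pderiv_C, pderiv_X_self, hpowl]
    have h6 := hpowl' k b
    simp only [map_one]
    simp only [map_add, map_one] at *
    linear_combination ((C (b : K) + 1) * X (Sum.inl k) * G) * h6
  have h6 : (C ((b : K) + 1) * C ((N : K) + s + ρ - b - 2)) * q ^ (b + 1) * G +
      q ^ (b + 2) * ∑ k : Fin N, pderiv (Sum.inl k) (pderiv (Sum.inr k) G) = 0 := by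
    have h7 : q * ∑ k : Fin N, pderiv (Sum.inl k) (pderiv (Sum.inr k) F) = 0 := by
      rw [h3, mul_zero]
    rw [Finset.mul_sum, Finset.sum_congr rfl (fun k _ => h5 k)] at h7
    simp only [Finset.sum_add_distrib, ← Finset.mul_sum] at h7
    rw [← hq, hE1, hE2, Finset.sum_const, Finset.card_univ, Fintype.card_fin, nsmul_eq_mul] at h7
    simp only [map_add, map_sub, map_one, map_natCast, map_ofNat] at h7 ⊢
    linear_combination h7
  have h7 : C (((b : K) + 1) * ((N : K) + s + ρ - b - 2)) * G +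
      q * ∑ k : Fin N, pderiv (Sum.inl k) (pderiv (Sum.inr k) G) = 0 := by
    apply mul_left_cancel₀ hqb1
    rw [mul_zero, ← h6, map_mul]
    ring
  have hconst : ((b : K) + 1) * ((N : K) + s + ρ - b - 2) ≠ 0 := by
    obtain ⟨t, ht⟩ : ∃ t : ℕ, N + s + ρ = (t + 1) + b + 2 := ⟨N + s + ρ - b - 3, by omega⟩
    have e1 : (N : K) + s + ρ - b - 2 = ((t + 1 : ℕ) : K) := by
      have := congrArg (Nat.cast (R := K)) ht
      push_cast at this ⊢
      linear_combination this
    rw [e1]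
    apply mul_ne_zero
    · exact_mod_cast Nat.succ_ne_zero b
    · exact_mod_cast Nat.succ_ne_zero t
  apply hGn
  refine ⟨-(C (((b : K) + 1) * ((N : K) + s + ρ - b - 2))⁻¹ *
    ∑ k : Fin N, pderiv (Sum.inl k) (pderiv (Sum.inr k) G)), ?_⟩
  have h8 : C (((b : K) + 1) * ((N : K) + s + ρ - b - 2))⁻¹ *
      C (((b : K) + 1) * ((N : K) + s + ρ - b - 2)) = (1 : MvPolynomial (Fin N ⊕ Fin N) K) := by
    rw [← map_mul, inv_mul_cancel₀ hconst, map_one]
  linear_combination (C (((b : K) + 1) * ((N : K) + s + ρ - b - 2))⁻¹) * h7 - G * h8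

end Geproci
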