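import Pool.Agent.Work.MP_efd9e3_ag.Fl.LinF

/-! MODULE Quad (MP_efd9e3_ag/Fl).  The quadric `∑ lam_k p_k` is irreducible for `N ≥ 2`
(Mathlib: `Mathlib/RingTheory/MvPolynomial/IrreducibleQuadratic.lean`, `irreducible_sum_smul_X_mul_Y` or similar),
and a polynomial which vanishes at its zeros is divisible by it (`irr_dvd_of_zeros`). -/

set_option autoImplicit false

open MvPolynomial

namespace Geproci

/-- the quadric `∑ lam_k p_k` -/
noncomputable def quadF (K : Type*) [Field K] (N : ℕ) : MvPolynomial (Fin N ⊕ Fin N) K :=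
  ∑ k, X (Sum.inl k) * X (Sum.inr k)

variable {K : Type*} [Field K] {N : ℕ}

private lemma qu_eq : (quadF K N) = sumSMulXSMulY
    (Finsupp.equivFunOnFinite.symm (fun _ : Fin N => (1 : K))) := by
  unfold quadF sumSMulXSMulY
  rw [Finsupp.linearCombination_apply, Finsupp.sum_fintype]
  · refine Finset.sum_congr rfl fun i _ => ?_
    simp
  · intro i
    simp

theorem quad_irr (hN : 2 ≤ N) : Irreducible (quadF K N) := by
  rw [qu_eq]
  apply irreducible_sumSMulXSMulY
  · refine ⟨⟨0, by omega⟩, ?_, ⟨1, by omega⟩, ?_, ?_⟩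
    · simp
    · simp
    · intro h
      simpa using congrArg Fin.val h
  · intro r hr
    have := hr ⟨0, by omega⟩
    simp only [Finsupp.equivFunOnFinite_symm_apply_apply] at this
    exact isUnit_of_dvd_one this

theorem quad_dvd [IsAlgClosed K] (hN : 2 ≤ N) (F : MvPolynomial (Fin N ⊕ Fin N) K)
    (h : ∀ x, eval x (quadF K N) = 0 → eval x F = 0) : quadF K N ∣ F :=
  irr_dvd_of_zeros _ _ (quad_irr hN) h

end Geproci
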