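import Pool.Agent.Work.MP_efd9e3_ag.Fl.DirP
import Pool.Agent.Work.MP_efd9e3_ag.Fl.RelExt
import Pool.Agent.Work.MP_efd9e3_ag.Fl.SysMin
import Pool.Agent.Work.MP_efd9e3_ag.Fl.Quad
import Pool.Agent.Work.MP_efd9e3_ag.Fl.Lap

/-! MODULE Harm (MP_efd9e3_ag/Fl).  There is no system with all `dirP (y z) (c z) = 0`.

`T` is not empty (`sys_nonempty`), take `z₀ ∈ T`, `c z₀ ≠ 0`, and `ρ` with
`homogeneousComponent ρ (c z₀) ≠ 0`; let `b z = homogeneousComponent ρ (c z)`: homogeneous of degree `ρ`,
`dirP (y z) (b z) = 0` (for `ρ = ρ' + 1` by `dirP_homComp`, for `ρ = 0` a constant, `dirP_C`), and by `rel_comp` the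
relation holds for `b`.  In `MvPolynomial (Fin N ⊕ Fin N) K` (`inl k` = `lam_k`, `inr k` = `p_k`) let
`F = ∑ z ∈ T, rename Sum.inr (b z) * (∑ k, C (y z k) * X (Sum.inl k)) ^ s`.
* `F` vanishes at the zeros of `quadF` (relation for `b`), so `quadF ∣ F` (`quad_dvd`).
* `F ≠ 0`: choose `p` with `eval p (b z₀) ≠ 0` (`K` infinite); if `F = 0` then
  `∑ z, eval p (b z) * (lam·y z)^s = 0` for all `lam`, so `eval p (b z₀) = 0` by `h.ind`.
* `totalDegree F ≤ s + ρ` (every term is homogeneous of degree `ρ + s`: `IsHomogeneous.totalDegree`-like).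
* Euler identities: `∑ k, X (inr k) * pderiv (inr k) (rename inr (b z)) = C ρ * rename inr (b z)` (Euler for `b z`,
  `pderiv_rename`-like; the other factor does not contain the `inr` variables), and the same for `inl` with
  `(∑ C X)^s`.
* `Δ F = ∑ z, rename inr (∑ k, C (y z k) * pderiv k (b z)) * s * (…)^(s-1) = 0` as `dirP (y z) (b z) = 0`.
`lap_not_dvd` gives a contradiction. -/

set_option autoImplicit false

open MvPolynomial

namespace Geproci

variable {K : Type*} [Field K] {N : ℕ} {ι : Type*}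

private noncomputable def haL (v : Fin N → K) : MvPolynomial (Fin N ⊕ Fin N) K :=
  ∑ k, C (v k) * X (Sum.inl k)

private lemma ha_dl (v : Fin N → K) (k : Fin N) : pderiv (Sum.inl k) (haL v) = C (v k) := by
  classical
  unfold haL
  rw [map_sum, Finset.sum_eq_single k]
  · rw [pderiv_C_mul, pderiv_X_self, mul_one]
  · intro j _ hj
    rw [pderiv_C_mul, pderiv_X_of_ne (by simpa using hj), mul_zero]
  · simp

private lemma ha_dr (v : Fin N → K) (k : Fin N) : pderiv (Sum.inr k) (haL v) = 0 := by
  classical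
  unfold haL
  rw [map_sum]
  apply Finset.sum_eq_zero
  intro j _
  rw [pderiv_C_mul, pderiv_X_of_ne (by simp), mul_zero]

private lemma ha_dlp (v : Fin N → K) (k : Fin N) (s : ℕ) :
    pderiv (Sum.inl k) (haL v ^ s) = C (s : K) * haL v ^ (s - 1) * C (v k) := by
  rw [Derivation.leibniz_pow, ha_dl]
  simp only [smul_eq_mul, nsmul_eq_mul, map_natCast]
  ring

private lemma ha_drp (v : Fin N → K) (k : Fin N) (s : ℕ) :
    pderiv (Sum.inr k) (haL v ^ s) = 0 := by
  rw [Derivation.leibniz_pow, ha_dr]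
  simp

private lemma ha_rl (b : MvPolynomial (Fin N) K) (k : Fin N) :
    pderiv (Sum.inl k) (rename (Sum.inr : Fin N → Fin N ⊕ Fin N) b) = 0 := by
  classical
  apply pderiv_eq_zero_of_notMem_vars
  intro h
  have h2 := vars_rename (Sum.inr : Fin N → Fin N ⊕ Fin N) b h
  rw [Finset.mem_image] at h2
  obtain ⟨j, _, hj⟩ := h2
  exact absurd hj (by simp)

private lemma ha_rr (b : MvPolynomial (Fin N) K) (k : Fin N) :
    pderiv (Sum.inr k) (rename (Sum.inr : Fin N → Fin N ⊕ Fin N) b) =
      rename Sum.inr (pderiv k b) :=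
  pderiv_rename Sum.inr_injective k b

theorem sys_harm [IsAlgClosed K] [CharZero K] (hN : 2 ≤ N) (s : ℕ) (T : Finset ι)
    (y : ι → Fin N → K) (c : ι → MvPolynomial (Fin N) K) (h : Sys s T y c)
    (hd : ∀ z ∈ T, dirP (y z) (c z) = 0) : False := by
  classical
  have hinf : Infinite K := IsAlgClosed.instInfinite
  obtain ⟨z₀, hz₀⟩ := sys_nonempty (by omega) s T y c h
  obtain ⟨ρ, hρ⟩ : ∃ ρ, homogeneousComponent ρ (c z₀) ≠ 0 := by
    by_contra hcon
    push Not at hcon
    apply h.ne z₀ hz₀
    rw [← sum_homogeneousComponent (c z₀)]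
    exact Finset.sum_eq_zero fun i _ => hcon i
  set b : ι → MvPolynomial (Fin N) K := fun z => homogeneousComponent ρ (c z) with hb
  have hbh : ∀ z, (b z).IsHomogeneous ρ := fun z => homogeneousComponent_isHomogeneous ρ (c z)
  have hbd : ∀ z ∈ T, dirP (y z) (b z) = 0 := by
    intro z hz
    simp only [hb]
    cases ρ with
    | zero => rw [homogeneousComponent_zero, dirP_C]
    | succ ρ' => rw [← dirP_homComp, hd z hz, map_zero]
  have hrel := rel_comp s T y c h.rel ρ
  set F : MvPolynomial (Fin N ⊕ Fin N) K := ∑ z ∈ T, rename Sum.inr (b z) * haL (y z) ^ s with hF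
  have hevL : ∀ (x : Fin N ⊕ Fin N → K) (v : Fin N → K),
      eval x (haL v) = ∑ k, x (Sum.inl k) * v k := by
    intro x v
    unfold haL
    rw [map_sum]
    refine Finset.sum_congr rfl fun k _ => ?_
    rw [map_mul, eval_C, eval_X, mul_comm]
  have hevF : ∀ x : Fin N ⊕ Fin N → K, eval x F = ∑ z ∈ T, eval (x ∘ Sum.inr) (b z) *
      (∑ k, x (Sum.inl k) * y z k) ^ s := by
    intro x
    rw [hF, map_sum]
    refine Finset.sum_congr rfl fun z _ => ?_
    rw [map_mul, map_pow, hevL, eval_rename]
  have hdvd : quadF K N ∣ F := by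
    apply quad_dvd hN
    intro x hx
    rw [hevF]
    apply hrel (fun k => x (Sum.inl k)) (x ∘ Sum.inr)
    rw [← hx]
    unfold quadF
    rw [map_sum]
    refine Finset.sum_congr rfl fun k _ => ?_
    rw [map_mul, eval_X, eval_X]
    rfl
  have hF0 : F ≠ 0 := by
    intro hcon
    obtain ⟨p, hp⟩ : ∃ p : Fin N → K, eval p (b z₀) ≠ 0 := by
      by_contra hcon2
      push Not at hcon2
      apply hρ
      apply MvPolynomial.funext
      intro p
      rw [hcon2 p, map_zero]
    apply hp
    apply h.ind (fun z => eval p (b z)) _ z₀ hz₀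
    intro lam
    have h1 := hevF (Sum.elim lam p)
    rw [hcon, map_zero] at h1
    exact h1.symm
  have hdeg : F.totalDegree ≤ s + ρ := by
    have h1 : F.IsHomogeneous (ρ + 1 * s) := by
      rw [hF]
      refine IsHomogeneous.sum _ _ _ fun z _ => ?_
      refine IsHomogeneous.mul ?_ (IsHomogeneous.pow ?_ s)
      · exact (hbh z).rename_isHomogeneous
      · exact IsHomogeneous.sum _ _ _ fun j _ => isHomogeneous_C_mul_X _ _
    have h2 := h1.totalDegree_le
    omega
  refine lap_not_dvd hN F hF0 s ρ hdeg ?_ ?_ ?_ hdvd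
  · -- Euler, first group
    have h1 : ∀ k : Fin N, X (Sum.inl k) * pderiv (Sum.inl k) F =
        ∑ z ∈ T, rename Sum.inr (b z) * (C (s : K) * haL (y z) ^ (s - 1)) *
          (C (y z k) * X (Sum.inl k)) := by
      intro k
      rw [hF, map_sum, Finset.mul_sum]
      refine Finset.sum_congr rfl fun z _ => ?_
      rw [Derivation.leibniz, ha_rl, ha_dlp]
      simp only [smul_eq_mul]
      ring
    rw [Finset.sum_congr rfl (fun k _ => h1 k), Finset.sum_comm, hF, Finset.mul_sum]
    refine Finset.sum_congr rfl fun z _ => ?_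
    rw [← Finset.mul_sum]
    change rename Sum.inr (b z) * (C (s : K) * haL (y z) ^ (s - 1)) * haL (y z) = _
    rcases Nat.eq_zero_or_pos s with hs | hs
    · rw [hs]; simp
    · have h2 : haL (y z) ^ (s - 1) * haL (y z) = haL (y z) ^ s := by
        rw [← pow_succ]
        congr 1
        omega
      rw [← h2]
      ring
  · -- Euler, second group
    have h1 : ∀ k : Fin N, X (Sum.inr k) * pderiv (Sum.inr k) F =
        ∑ z ∈ T, rename Sum.inr (X k * pderiv k (b z)) * haL (y z) ^ s := by
      intro k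
      rw [hF, map_sum, Finset.mul_sum]
      refine Finset.sum_congr rfl fun z _ => ?_
      rw [Derivation.leibniz, ha_rr, ha_drp, map_mul, rename_X]
      simp only [smul_eq_mul]
      ring
    rw [Finset.sum_congr rfl (fun k _ => h1 k), Finset.sum_comm, hF, Finset.mul_sum]
    refine Finset.sum_congr rfl fun z _ => ?_
    rw [← Finset.sum_mul, ← map_sum, (hbh z).sum_X_mul_pderiv]
    simp only [nsmul_eq_mul, map_mul, map_natCast]
    ring
  · -- Laplacian
    have h1 : ∀ k : Fin N, pderiv (Sum.inl k) (pderiv (Sum.inr k) F) =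
        ∑ z ∈ T, (C (s : K) * haL (y z) ^ (s - 1)) *
          rename Sum.inr (C (y z k) * pderiv k (b z)) := by
      intro k
      rw [hF, map_sum, map_sum]
      refine Finset.sum_congr rfl fun z _ => ?_
      rw [Derivation.leibniz, ha_rr, ha_drp, smul_zero, zero_add, smul_eq_mul,
        Derivation.leibniz, ha_rl, ha_dlp, map_mul, rename_C]
      simp only [smul_eq_mul]
      ring
    rw [Finset.sum_congr rfl (fun k _ => h1 k), Finset.sum_comm]
    apply Finset.sum_eq_zero
    intro z hz
    rw [← Finset.mul_sum, ← map_sum]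
    change C (s : K) * haL (y z) ^ (s - 1) * rename Sum.inr (dirP (y z) (b z)) = 0
    rw [hbd z hz, map_zero, mul_zero]

end Geproci
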