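import Pool.Agent.Work.MP_efd9e3_ag.Fl.LinF

/-! MODULE HypPar (MP_efd9e3_ag/Fl), helper69.  Parametrisation of the hyperplane `W`. -/

set_option autoImplicit false

open MvPolynomial

namespace Geproci

variable {K : Type*} [Field K] {N : ℕ} {ι : Type*}

private theorem HypPar_fun (f : (Fin N → K) →ₗ[K] K) (v : Fin N → K) :
    f v = ∑ k, f (Pi.single k 1) * v k := by
  have : v = ∑ j, v j • (Pi.single j 1 : Fin N → K) := by
    funext i
    simp [Finset.sum_apply, Pi.single_apply]
  conv_lhs => rw [this]
  rw [map_sum]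
  exact Finset.sum_congr rfl fun j _ => by rw [map_smul, smul_eq_mul, mul_comm]

theorem hyp_param [IsAlgClosed K] (S : MvPolynomial (Fin (N+1)) K) (hS : Irreducible S)
    (W : Submodule K (Fin (N+1) → K)) (hW : W ≠ ⊤)
    (h : ∀ l : Fin (N+1) → K, (∀ w ∈ W, ∑ k, l k * w k = 0) → S ∣ linf l) :
    ∃ φ : (Fin N → K) →ₗ[K] (Fin (N+1) → K), Function.Injective φ ∧ LinearMap.range φ = W ∧
      ∀ q : MvPolynomial (Fin (N+1)) K, compL φ q = 0 ↔ S ∣ q := by
  classical
  have hinf : Infinite K := IsAlgClosed.instInfinite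
  obtain ⟨L, hL0, hLW⟩ := Submodule.exists_le_ker_of_lt_top W (lt_top_iff_ne_top.2 hW)
  set l : Fin (N+1) → K := fun k => L (Pi.single k 1) with hl
  have hLl : ∀ v, L v = ∑ k, l k * v k := HypPar_fun L
  obtain ⟨b, hb⟩ := h l (fun w hw => by
    rw [← hLl]
    exact LinearMap.mem_ker.1 (hLW hw))
  have hlin0 : linf l ≠ 0 := by
    intro h0
    apply hL0
    ext1 k
    have h1 : ∀ v, L v = 0 := by
      intro v
      rw [hLl, ← eval_linf, h0, map_zero]
    ext
    simp [h1]
  have hb0 : b ≠ 0 := by
    rintro rfl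
    exact hlin0 (by rw [hb, mul_zero])
  have hdeg : 1 ≤ S.totalDegree := by
    by_contra hcon
    have h0 : S.totalDegree = 0 := by omega
    rw [totalDegree_eq_zero_iff_eq_C] at h0
    apply hS.not_isUnit
    rw [h0]
    apply IsUnit.map C
    rw [isUnit_iff_ne_zero]
    intro h00
    apply hS.ne_zero
    rw [h0, h00, C_0]
  have hbd : b.totalDegree = 0 := by
    have h1 : (linf l).totalDegree = S.totalDegree + b.totalDegree := by
      rw [hb]
      exact totalDegree_mul_of_isDomain hS.ne_zero hb0
    have h2 : (linf l).totalDegree ≤ 1 := (linf_hom l).totalDegree_le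
    omega
  rw [totalDegree_eq_zero_iff_eq_C] at hbd
  set a := coeff 0 b with ha
  have ha0 : a ≠ 0 := by
    intro h0
    apply hb0
    rw [hbd, h0, C_0]
  have hSl : ∀ x, ∑ k, l k * x k = a * eval x S := by
    intro x
    rw [← eval_linf, hb, map_mul, hbd, eval_C, mul_comm]
  have hWl : ∀ v, v ∈ W ↔ ∑ k, l k * v k = 0 := by
    intro v
    constructor
    · intro hv
      rw [← hLl]
      exact LinearMap.mem_ker.1 (hLW hv)
    · intro hv
      by_contra hvW
      obtain ⟨f, hf1, hf2⟩ := Submodule.exists_le_ker_of_notMem hvW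
      obtain ⟨b', hb'⟩ := h (fun k => f (Pi.single k 1)) (fun w hw => by
        rw [← HypPar_fun f]
        exact LinearMap.mem_ker.1 (hf2 hw))
      apply hf1
      have hSv : eval v S = 0 := by
        have := hSl v
        rw [hv] at this
        exact (mul_eq_zero.1 this.symm).resolve_left ha0
      rw [HypPar_fun f, ← eval_linf (fun k => f (Pi.single k 1)), hb', map_mul, hSv, zero_mul]
  have hker : W = LinearMap.ker L := by
    ext v
    rw [hWl, LinearMap.mem_ker, hLl]
  have hfin : Module.finrank K (Fin N → K) = Module.finrank K W := by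
    have h1 := LinearMap.finrank_range_add_finrank_ker L
    have h2 : Module.finrank K (LinearMap.range L) = 1 := by
      rw [LinearMap.range_eq_top.2 (LinearMap.surjective hL0), finrank_top, Module.finrank_self]
    rw [h2, ← hker] at h1
    simp only [Module.finrank_fintype_fun_eq_card, Fintype.card_fin] at h1 ⊢
    omega
  let e : (Fin N → K) ≃ₗ[K] W := LinearEquiv.ofFinrankEq _ _ hfin
  refine ⟨W.subtype ∘ₗ e.toLinearMap, ?_, ?_, ?_⟩
  · exact (Submodule.injective_subtype W).comp e.injective
  · rw [LinearMap.range_comp, LinearEquiv.range, Submodule.map_top, Submodule.range_subtype]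
  · intro q
    constructor
    · intro hq
      refine irr_dvd_of_zeros S q hS fun x hx => ?_
      have hxW : x ∈ W := by
        rw [hWl, hSl, hx, mul_zero]
      have h1 := eval_compL (W.subtype ∘ₗ e.toLinearMap) q (e.symm ⟨x, hxW⟩)
      rw [hq, map_zero] at h1
      rw [h1]
      congr 2
      simp
    · rintro ⟨r, rfl⟩
      apply MvPolynomial.funext
      intro v
      rw [eval_compL, map_mul, map_zero]
      have hv : (W.subtype ∘ₗ e.toLinearMap) v ∈ W := (e v).2
      have : eval ((W.subtype ∘ₗ e.toLinearMap) v) S = 0 := by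
        have h1 := hSl ((W.subtype ∘ₗ e.toLinearMap) v)
        rw [(hWl _).1 hv] at h1
        exact (mul_eq_zero.1 h1.symm).resolve_left ha0
      rw [this, zero_mul]

end Geproci
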