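import Pool.Agent.Work.MP_efd9e3_ag.Fl.DirP

/-! MODULE LinF (MP_efd9e3_ag/Fl), helper69.  An irreducible `S` which does not divide all coefficients divides every
linear form `l` that vanishes at the `y z` with `¬ S ∣ c z`. -/

set_option autoImplicit false

open MvPolynomial

namespace Geproci

variable {K : Type*} [Field K] {N : ℕ} {ι : Type*}

theorem irr_dvd_of_zeros [IsAlgClosed K] {σ : Type*} [Finite σ] (S q : MvPolynomial σ K)
    (hS : Irreducible S) (h : ∀ x, eval x S = 0 → eval x q = 0) : S ∣ q := by
  have hp : Prime S := UniqueFactorizationMonoid.irreducible_iff_prime.1 hS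
  have h1 : q ∈ (Ideal.span {S}).radical := by
    rw [← MvPolynomial.vanishingIdeal_zeroLocus_eq_radical (K := K) (Ideal.span {S})]
    rw [MvPolynomial.mem_vanishingIdeal_iff]
    intro x hx
    rw [MvPolynomial.mem_zeroLocus_iff] at hx
    have := h x (by simpa [aeval_eq_eval] using hx S (Ideal.mem_span_singleton_self S))
    simpa [aeval_eq_eval] using this
  have h2 : (Ideal.span {S}).IsPrime := (Ideal.span_singleton_prime hS.ne_zero).2 hp
  rw [h2.isRadical.radical] at h1
  exact Ideal.mem_span_singleton.1 h1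

theorem irr_dvd_linf [IsAlgClosed K] (s : ℕ) (T : Finset ι) (y : ι → Fin N → K)
    (c : ι → MvPolynomial (Fin N) K) (h : Sys s T y c) (S : MvPolynomial (Fin N) K)
    (hS : Irreducible S) (z₀ : ι) (hz₀ : z₀ ∈ T) (hSz : ¬ S ∣ c z₀) (l : Fin N → K)
    (hl : ∀ z ∈ T, ¬ S ∣ c z → ∑ k, l k * y z k = 0) : S ∣ linf l := by
  have hp : Prime S := UniqueFactorizationMonoid.irreducible_iff_prime.1 hS
  have h1 : S ∣ c z₀ * linf l := by
    refine irr_dvd_of_zeros S _ hS fun p hpS => ?_
    rw [map_mul, eval_linf]
    by_cases hlp : ∑ k, l k * p k = 0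
    · rw [hlp, mul_zero]
    · have h2 : ∀ z ∈ T, eval p (c z) = 0 := by
        apply h.ind
        intro mu
        set e : K := (∑ k, mu k * p k) / (∑ k, l k * p k) with he
        have h3 := h.rel (fun k => mu k - e * l k) p (by
          simp only [sub_mul, Finset.sum_sub_distrib, mul_assoc, ← Finset.mul_sum]
          rw [he, div_mul_cancel₀ _ hlp, sub_self])
        rw [← h3]
        refine Finset.sum_congr rfl fun z hz => ?_
        by_cases hz' : S ∣ c z
        · obtain ⟨b, hb⟩ := hz'
          rw [hb, map_mul, hpS, zero_mul, zero_mul, zero_mul]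
        · congr 2
          simp only [sub_mul, Finset.sum_sub_distrib, mul_assoc, ← Finset.mul_sum]
          rw [hl z hz hz', mul_zero, sub_zero]
      rw [h2 z₀ hz₀, zero_mul]
  exact (hp.dvd_or_dvd h1).resolve_left hSz

end Geproci
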