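import Pool.Agent.Work.MP_efd9e3_ag.Fl.DirP

/-! MODULE SysMult (MP_efd9e3_ag/Fl), helper69.  If `y z₀` is in the span of the `y z` with `S ∤ c z`, then the order
of `dirP (y z₀) (c z₀)` at `S` is at least the order of `c z₀`. -/

set_option autoImplicit false

open MvPolynomial

namespace Geproci

variable {K : Type*} [Field K] {N : ℕ} {ι : Type*}

private theorem SysMult_split {R : Type*} [CommRing R] [IsDomain R] [UniqueFactorizationMonoid R]
    (S P : R) (hS : Irreducible S) (hP : P ≠ 0) : ∃ (l : ℕ) (w : R), P = S ^ l * w ∧ ¬ S ∣ w := by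
  have hfin : FiniteMultiplicity S P := FiniteMultiplicity.of_not_isUnit hS.not_isUnit hP
  obtain ⟨w, hw⟩ := hfin.exists_eq_pow_mul_and_not_dvd
  exact ⟨_, w, hw.1, hw.2⟩

theorem sys_mult (s : ℕ) (T : Finset ι) (y : ι → Fin N → K) (c : ι → MvPolynomial (Fin N) K)
    (h : Sys s T y c) (S : MvPolynomial (Fin N) K) (hS : Irreducible S) (z₀ : ι) (hz₀ : z₀ ∈ T)
    (hsp : y z₀ ∈ Submodule.span K (y '' {z | z ∈ T ∧ ¬ S ∣ c z})) (k : ℕ) (hk : S ^ k ∣ c z₀) :
    S ^ k ∣ dirP (y z₀) (c z₀) := by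
  classical
  have hp : Prime S := UniqueFactorizationMonoid.irreducible_iff_prime.1 hS
  by_cases hSz : S ∣ c z₀
  · -- the coefficients
    obtain ⟨t, ht, htz⟩ : ∃ t : ι → K, (∀ z, t z ≠ 0 → z ∈ T ∧ ¬ S ∣ c z) ∧
        ∑ z ∈ T, t z • y z = y z₀ := by
      rw [Finsupp.mem_span_image_iff_linearCombination] at hsp
      obtain ⟨l, hl, hly⟩ := hsp
      rw [Finsupp.mem_supported] at hl
      refine ⟨l, fun z hz => ?_, ?_⟩
      · have := hl (Finset.mem_coe.2 (Finsupp.mem_support_iff.2 hz))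
        exact this
      · rw [← hly, Finsupp.linearCombination_apply, Finsupp.sum]
        symm
        apply Finset.sum_subset
        · intro z hz
          have : z ∈ {z | z ∈ T ∧ ¬ S ∣ c z} := hl (Finset.mem_coe.2 hz)
          exact this.1
        · intro z _ hz
          rw [Finsupp.notMem_support_iff.1 hz, zero_smul]
    have ht0 : t z₀ = 0 := by
      by_contra hcon
      exact (ht z₀ hcon).2 hSz
    have h1 := h.lin (fun z => t z - (if z = z₀ then 1 else 0)) (by
      simp only [sub_smul, Finset.sum_sub_distrib, ite_smul, one_smul, zero_smul,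
        Finset.sum_ite_eq', if_pos hz₀, htz, sub_self])
    simp only [C_sub, sub_mul, Finset.sum_sub_distrib] at h1
    have h2 : ∑ z ∈ T, C (if z = z₀ then (1:K) else 0) * dirP (y z) (c z) *
        ∏ z' ∈ T.erase z, c z' = dirP (y z₀) (c z₀) * ∏ z' ∈ T.erase z₀, c z' := by
      rw [Finset.sum_eq_single z₀]
      · rw [if_pos rfl, C_1, one_mul]
      · intro z _ hz
        rw [if_neg hz, C_0, zero_mul, zero_mul]
      · intro hcon
        exact absurd hz₀ hcon
    rw [h2, sub_eq_zero] at h1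
    have hPne : (∏ z' ∈ T.erase z₀, c z') ≠ 0 :=
      Finset.prod_ne_zero_iff.2 fun z hz => h.ne z (Finset.mem_of_mem_erase hz)
    obtain ⟨l, w, hw, hSw⟩ := SysMult_split S _ hS hPne
    have h3 : S ^ (k + l) ∣ ∑ z ∈ T, C (t z) * dirP (y z) (c z) * ∏ z' ∈ T.erase z, c z' := by
      refine Finset.dvd_sum fun z hz => ?_
      by_cases htz0 : t z = 0
      · rw [htz0, C_0, zero_mul, zero_mul]
        exact dvd_zero _
      · obtain ⟨-, hSz'⟩ := ht z htz0
        refine Dvd.dvd.mul_left ?_ _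
        have h4 : c z * ∏ z' ∈ T.erase z, c z' = c z₀ * (S ^ l * w) := by
          rw [← hw, Finset.mul_prod_erase T c hz, Finset.mul_prod_erase T c hz₀]
        have h5 : S ^ (k + l) ∣ c z * ∏ z' ∈ T.erase z, c z' := by
          rw [h4, pow_add]
          exact mul_dvd_mul hk (Dvd.intro _ rfl)
        exact hp.pow_dvd_of_dvd_mul_left (k + l) hSz' h5
    rw [h1, hw] at h3
    have h6 : S ^ l * S ^ k ∣ S ^ l * (dirP (y z₀) (c z₀) * w) := by
      rw [← pow_add, add_comm l k]
      have : S ^ l * (dirP (y z₀) (c z₀) * w) = dirP (y z₀) (c z₀) * (S ^ l * w) := by ring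
      rw [this]
      exact h3
    have h7 := (mul_dvd_mul_iff_left (pow_ne_zero l hS.ne_zero)).1 h6
    exact hp.pow_dvd_of_dvd_mul_right k hSw h7
  · have hk0 : k = 0 := by
      by_contra hcon
      exact hSz (dvd_trans (dvd_pow_self S hcon) hk)
    rw [hk0, pow_zero]
    exact one_dvd _

end Geproci
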