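import Pool.Agent.Work.MP_efd9e3_ag.Fl.DirP

/-! MODULE SysRes (MP_efd9e3_ag/Fl), helper69.  Restriction of a system to the linear subspace `range φ`. -/

set_option autoImplicit false

open MvPolynomial

namespace Geproci

variable {K : Type*} [Field K] {N M : ℕ} {ι : Type*}

private theorem SysRes_dot (φ : (Fin N → K) →ₗ[K] (Fin M → K)) (lam : Fin M → K) (v : Fin N → K) :
    ∑ k, (∑ j, lam j * φ (Pi.single k 1) j) * v k = ∑ j, lam j * φ v j := by
  have hv : v = ∑ k, v k • (Pi.single k 1 : Fin N → K) := by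
    funext i
    simp [Finset.sum_apply, Pi.single_apply]
  conv_rhs => rw [hv]
  simp only [map_sum, map_smul, Finset.sum_apply, Pi.smul_apply, smul_eq_mul, Finset.mul_sum,
    Finset.sum_mul]
  rw [Finset.sum_comm]
  exact Finset.sum_congr rfl fun j _ => Finset.sum_congr rfl fun k _ => by ring

theorem sys_res (s : ℕ) (T : Finset ι) (y : ι → Fin M → K) (c : ι → MvPolynomial (Fin M) K)
    (h : Sys s T y c) (φ : (Fin N → K) →ₗ[K] (Fin M → K)) (hφ : Function.Injective φ)
    (T' : Finset ι) (hTT : T' ⊆ T)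
    (hr : LinearMap.range φ = Submodule.span K (y '' (T' : Set ι)))
    (hT' : ∀ z ∈ T, z ∈ T' ↔ compL φ (c z) ≠ 0) :
    ∃ y' : ι → Fin N → K, (∀ z ∈ T', φ (y' z) = y z) ∧ Sys s T' y' (fun z => compL φ (c z)) := by
  classical
  have hex : ∀ z, ∃ v : Fin N → K, z ∈ T' → φ v = y z := by
    intro z
    by_cases hz : z ∈ T'
    · have h1 : y z ∈ LinearMap.range φ := by
        rw [hr]
        exact Submodule.subset_span ⟨z, hz, rfl⟩
      obtain ⟨v, hv⟩ := h1
      exact ⟨v, fun _ => hv⟩
    · exact ⟨0, fun h => absurd h hz⟩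
  choose y' hy' using hex
  refine ⟨y', hy', ?_, ?_, ?_, ?_, ?_⟩
  · -- span
    have h1 : (Submodule.span K (y' '' (T' : Set ι))).map φ = LinearMap.range φ := by
      rw [Submodule.map_span, hr]
      congr 1
      ext v
      constructor
      · rintro ⟨_, ⟨z, hz, rfl⟩, rfl⟩
        exact ⟨z, hz, (hy' z hz).symm⟩
      · rintro ⟨z, hz, rfl⟩
        exact ⟨y' z, ⟨z, hz, rfl⟩, hy' z hz⟩
    rw [← Submodule.map_top] at h1
    exact Submodule.map_injective_of_injective hφ h1
  · intro z hz
    exact (hT' z (hTT hz)).1 hz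
  · -- rel
    intro lam' p' hlp
    obtain ⟨ψ, hψ⟩ := φ.exists_leftInverse_of_injective (LinearMap.ker_eq_bot.2 hφ)
    set lam : Fin M → K := fun j => ∑ k, lam' k * ψ (Pi.single j 1) k with hlam
    have hlamφ : ∀ v : Fin N → K, ∑ j, lam j * φ v j = ∑ k, lam' k * v k := by
      intro v
      rw [hlam, SysRes_dot ψ lam' (φ v)]
      have : ψ (φ v) = v := by
        have := congrArg (fun f => f v) hψ
        simpa using this
      rw [this]
    have h1 := h.rel lam (φ p') (by rw [hlamφ, hlp])
    rw [← Finset.sum_subset hTT] at h1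
    · rw [← h1]
      refine Finset.sum_congr rfl fun z hz => ?_
      rw [eval_compL, ← hlamφ (y' z), hy' z hz]
    · intro z hz hz'
      have h2 : compL φ (c z) = 0 := by
        by_contra hcon
        exact hz' ((hT' z hz).2 hcon)
      rw [← eval_compL, h2, map_zero, zero_mul]
  · -- ind
    intro a ha z hz
    have h1 := h.ind (fun z => if z ∈ T' then a z else 0) (fun lam => by
      refine Eq.trans ?_ (ha (fun k => ∑ j, lam j * φ (Pi.single k 1) j))
      rw [← Finset.sum_subset hTT]
      · refine Finset.sum_congr rfl fun z hz => ?_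
        rw [if_pos hz, SysRes_dot, hy' z hz]
      · intro z _ hz'
        rw [if_neg hz', zero_mul]) z (hTT hz)
    rwa [if_pos hz] at h1
  · -- lin
    intro _ t ht
    have h1 := h.lin (fun z => if z ∈ T' then t z else 0) (by
      rw [← Finset.sum_subset hTT]
      · have h2 : ∑ z ∈ T', (if z ∈ T' then t z else 0) • y z = φ (∑ z ∈ T', t z • y' z) := by
          rw [map_sum]
          refine Finset.sum_congr rfl fun z hz => ?_
          rw [if_pos hz, map_smul, hy' z hz]
        rw [h2, ht, map_zero]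
      · intro z _ hz'
        rw [if_neg hz', zero_smul])
    rw [← Finset.sum_subset hTT (fun z _ hz' => by
      rw [if_neg hz', C_0, zero_mul, zero_mul])] at h1
    have h2 : (∏ z' ∈ T \ T', c z') *
        ∑ z ∈ T', C (t z) * dirP (y z) (c z) * ∏ z' ∈ T'.erase z, c z' = 0 := by
      rw [← h1, Finset.mul_sum]
      refine Finset.sum_congr rfl fun z hz => ?_
      rw [if_pos hz]
      have h3 : T.erase z = (T \ T') ∪ T'.erase z := by
        ext w
        simp only [Finset.mem_erase, Finset.mem_union, Finset.mem_sdiff]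
        constructor
        · rintro ⟨hwz, hwT⟩
          by_cases hw : w ∈ T'
          · exact Or.inr ⟨hwz, hw⟩
          · exact Or.inl ⟨hwT, hw⟩
        · rintro (⟨hwT, hw⟩ | ⟨hwz, hw⟩)
          · exact ⟨fun h => hw (h ▸ hz), hwT⟩
          · exact ⟨hwz, hTT hw⟩
      have h4 : Disjoint (T \ T') (T'.erase z) := by
        rw [Finset.disjoint_left]
        intro w hw hw'
        exact (Finset.mem_sdiff.1 hw).2 (Finset.mem_of_mem_erase hw')
      rw [h3, Finset.prod_union h4]
      ring
    have h5 : (∏ z' ∈ T \ T', c z') ≠ 0 :=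
      Finset.prod_ne_zero_iff.2 fun z hz => h.ne z (Finset.mem_sdiff.1 hz).1
    have h6 := (mul_eq_zero.1 h2).resolve_left h5
    have h7 := congrArg (compL φ) h6
    rw [map_zero, map_sum] at h7
    rw [← h7]
    refine Finset.sum_congr rfl fun z hz => ?_
    rw [map_mul, map_mul, map_prod, dirP_compL, hy' z hz]
    congr 2
    simp [compL]

end Geproci
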