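import Pool.Agent.Work.MP_efd9e3_ag.Fl.SysMin
import Pool.Agent.Work.MP_efd9e3_ag.Fl.HypPar
import Pool.Agent.Work.MP_efd9e3_ag.Fl.SysRes
import Pool.Agent.Work.MP_efd9e3_ag.Fl.SysMult
import Pool.Agent.Work.MP_efd9e3_ag.Fl.DirZero
import Pool.Agent.Work.MP_efd9e3_ag.Fl.Harm

/-! MODULE Step (MP_efd9e3_ag/Fl), helper69.  From `K^{N+1}` to `K^N`.

By `sys_min` assume there is no common irreducible factor.  If for every irreducible `S` the `y z`, `z ∈ T`,
`¬ S ∣ c z`, span everything, then by `sys_mult` and `dirP_eq_zero` all `dirP (y z) (c z)`, `z ∈ T`, are `0`: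
contradiction with `sys_harm`.  So there is an irreducible `S` such that `W = span (y '' T')` is not `⊤`,
`T' = {z ∈ T | ¬ S ∣ c z}`, which is not empty.  By `irr_dvd_linf` and `hyp_param` there is `φ` with range `W` and
`compL φ q = 0 ↔ S ∣ q`.  `sys_res`. -/

set_option autoImplicit false

open MvPolynomial

namespace Geproci

variable {K : Type*} [Field K] {N : ℕ} {ι : Type*}

theorem sys_step [IsAlgClosed K] [CharZero K] (hN : 1 ≤ N) (s : ℕ) (T : Finset ι)
    (y : ι → Fin (N+1) → K) (c : ι → MvPolynomial (Fin (N+1)) K) (h : Sys s T y c) :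
    ∃ (φ : (Fin N → K) →ₗ[K] (Fin (N+1) → K)) (T' : Finset ι) (y' : ι → Fin N → K)
      (c' : ι → MvPolynomial (Fin N) K), Function.Injective φ ∧ T' ⊆ T ∧
      (∀ z ∈ T', φ (y' z) = y z) ∧ Sys s T' y' c' := by
  classical
  have hinf : Infinite K := IsAlgClosed.instInfinite
  obtain ⟨b, hb, hmin⟩ := sys_min (by omega) s T y c h
  by_cases hall : ∀ S : MvPolynomial (Fin (N+1)) K, Irreducible S →
      Submodule.span K (y '' {z | z ∈ T ∧ ¬ S ∣ b z}) = ⊤
  · exfalso
    refine sys_harm (by omega) s T y b hb fun z hz => ?_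
    refine dirP_eq_zero (y z) (b z) (hb.ne z hz) fun S hS k hk => ?_
    refine sys_mult s T y b hb S hS z hz ?_ k hk
    rw [hall S hS]
    trivial
  · push Not at hall
    obtain ⟨S, hS, hW⟩ := hall
    obtain ⟨z₀, hz₀, hSz⟩ := hmin S hS
    set T' : Finset ι := T.filter fun z => ¬ S ∣ b z with hT'
    have hTs : (T' : Set ι) = {z | z ∈ T ∧ ¬ S ∣ b z} := by
      ext z; simp [hT']
    obtain ⟨φ, hφ, hr, hq⟩ := hyp_param S hS (Submodule.span K (y '' {z | z ∈ T ∧ ¬ S ∣ b z})) hW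
      (fun l hl => irr_dvd_linf s T y b hb S hS z₀ hz₀ hSz l fun z hz hz' =>
        hl (y z) (Submodule.subset_span ⟨z, ⟨hz, hz'⟩, rfl⟩))
    obtain ⟨y', hy', hsys⟩ := sys_res s T y b hb φ hφ T' (Finset.filter_subset _ _)
      (by rw [hTs, hr]) (fun z hz => by simp [hT', hz, hq])
    exact ⟨φ, T', y', _, hφ, Finset.filter_subset _ _, hy', hsys⟩

end Geproci
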