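import Pool.Agent.Work.MP_efd9e3_ag.Fl.Ann
import Pool.Agent.Work.MP_efd9e3_ag.Fl.Der
import Pool.Agent.Work.MP_efd9e3_ag.Fl.PowPolar

/-! MODULE Theta (MP_efd9e3_ag/Fl), helper69. -/

set_option autoImplicit false

open MvPolynomial

namespace Geproci

variable {K : Type*} [Field K] {n : ℕ} {ι : Type*}

private def Theta_proj (p : Fin (n+1) → K) : (Fin (n+1) → K) →ₗ[K] (Fin n → K) where
  toFun v := proj p v
  map_add' a b := by
    funext i
    simp only [proj, Pi.add_apply]
    ring
  map_smul' c a := by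
    funext i
    simp only [proj, Pi.smul_apply, smul_eq_mul, RingHom.id_apply]
    ring

private theorem Theta_span [Fintype ι] (z : ι → Fin (n+1) → K)
    (hsp : Submodule.span K (Set.range z) = ⊤) (p : Fin (n+1) → K) (hp : p (Fin.last n) ≠ 0) :
    Submodule.span K (Set.range fun i => proj p (z i)) = ⊤ := by
  have h1 : (Set.range fun i => proj p (z i)) = Theta_proj p '' Set.range z := by
    rw [← Set.range_comp]
    rfl
  rw [h1, ← Submodule.map_span, hsp, Submodule.map_top, LinearMap.range_eq_top]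
  intro x
  refine ⟨Fin.snoc (fun i => (p (Fin.last n))⁻¹ * x i) 0, ?_⟩
  funext i
  show proj p _ i = x i
  rw [proj, Fin.snoc_castSucc, Fin.snoc_last, zero_mul, sub_zero, mul_inv_cancel_left₀ hp]

theorem theta_lin [CharZero K] [Fintype ι] (z : ι → Fin (n+1) → K)
    (hsp : Submodule.span K (Set.range z) = ⊤) (s : ℕ)
    (c : ι → MvPolynomial (Fin (n+1)) K)
    (h : ∀ (p : Fin (n+1) → K) (q : MvPolynomial (Fin n) K), q.IsHomogeneous (s+1) →
      ∑ i, eval p (c i) * eval (proj p (z i)) q = 0)
    (p : Fin (n+1) → K) (hp : p (Fin.last n) ≠ 0) (hc : ∀ i, eval p (c i) ≠ 0)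
    (hfr1 : Module.finrank K (evs (fun i => proj p (z i)) (s+1)) + 1 = Fintype.card ι)
    (hfr0 : Module.finrank K (evs (fun i => proj p (z i)) s) + n = Fintype.card ι) :
    ∃ θ : Fin (n+1) → K, ∀ i, eval p (dirP (z i) (c i)) = (∑ k, θ k * z i k) * eval p (c i) := by
  have hne : Nonempty ι := by
    rw [← Fintype.card_pos_iff]; omega
  have hcann : (fun i => eval p (c i)) ∈ ann (evs (fun i => proj p (z i)) (s+1)) := by
    rw [mem_ann_evs]
    exact fun q hq => h p q hq
  have hc0 : (fun i => eval p (c i)) ≠ 0 := fun h0 => hc hne.some (congrFun h0 _)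
  obtain ⟨χ, hχ⟩ := rel_unique _ hfr1 _ hcann hc0 (fun i => eval p (dirP p (c i))) (by
    rw [mem_ann_evs]
    exact fun q hq => der_radial z s c h p q hq)
  obtain ⟨θ, hθ⟩ := rel_linear (fun i => proj p (z i)) (Theta_span z hsp p hp) s _ hcann hc hfr0
    (fun i => p (Fin.last n) * eval p (dirP (z i) (c i)) - z i (Fin.last n) * eval p (dirP p (c i)) -
      ((n + s : ℕ) : K) * z i (Fin.last n) * eval p (c i)) (by
    rw [mem_ann_evs]
    exact fun q hq => der_contract z s c h p q hq)
  refine ⟨Fin.snoc (fun k => θ k)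
    ((p (Fin.last n))⁻¹ * (χ + ((n + s : ℕ) : K) - ∑ k, θ k * p k.castSucc)), fun i => ?_⟩
  have h1 := hθ i
  have h2 : eval p (dirP p (c i)) = χ * eval p (c i) := hχ i
  rw [h2] at h1
  have h3 : ∑ k, θ k * proj p (z i) k = p (Fin.last n) * (∑ k, θ k * z i k.castSucc) -
      z i (Fin.last n) * ∑ k, θ k * p k.castSucc := by
    rw [Finset.mul_sum, Finset.mul_sum, ← Finset.sum_sub_distrib]
    refine Finset.sum_congr rfl fun k _ => ?_
    rw [proj]; ring
  rw [h3] at h1
  rw [Fin.sum_univ_castSucc]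
  simp only [Fin.snoc_castSucc, Fin.snoc_last]
  apply mul_left_cancel₀ hp
  have h4 : p (Fin.last n) * (p (Fin.last n))⁻¹ = 1 := mul_inv_cancel₀ hp
  linear_combination h1 - (χ + ((n + s : ℕ) : K) - ∑ k, θ k * p k.castSucc) * z i (Fin.last n) *
    eval p (c i) * h4

theorem no_const [CharZero K] [Fintype ι] (hn : 1 ≤ n) (z : ι → Fin (n+1) → K)
    (hsp : Submodule.span K (Set.range z) = ⊤) (s : ℕ)
    (c : ι → MvPolynomial (Fin (n+1)) K)
    (h : ∀ (p : Fin (n+1) → K) (q : MvPolynomial (Fin n) K), q.IsHomogeneous (s+1) →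
      ∑ i, eval p (c i) * eval (proj p (z i)) q = 0)
    (p : Fin (n+1) → K) (hp : p (Fin.last n) ≠ 0) (hc : ∀ i, eval p (c i) ≠ 0)
    (hfr1 : Module.finrank K (evs (fun i => proj p (z i)) (s+1)) + 1 = Fintype.card ι)
    (hfr0 : Module.finrank K (evs (fun i => proj p (z i)) s) + n = Fintype.card ι)
    (a : ι → K) (ha : ∀ lam : Fin (n+1) → K, ∑ i, a i * (∑ k, lam k * z i k) ^ (s+1) = 0) :
    ∀ i, a i = 0 := by
  have hne : Nonempty ι := by
    rw [← Fintype.card_pos_iff]; omega
  have hcann : (fun i => eval p (c i)) ∈ ann (evs (fun i => proj p (z i)) (s+1)) := by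
    rw [mem_ann_evs]
    exact fun q hq => h p q hq
  have hc0 : (fun i => eval p (c i)) ≠ 0 := fun h0 => hc hne.some (congrFun h0 _)
  -- the constants satisfy the relation for all centres
  have hrel : ∀ (p' : Fin (n+1) → K) (q : MvPolynomial (Fin n) K), q.IsHomogeneous (s+1) →
      ∑ i, eval p' (C (a i) : MvPolynomial (Fin (n+1)) K) * eval (proj p' (z i)) q = 0 := by
    intro p' q hq
    have hcomp : (compL (Theta_proj p') q).IsHomogeneous (s+1) := by
      have h1 := hq.aeval (fun k => ∑ j, C ((Theta_proj p') (Pi.single j 1) k) * X j)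
        (n := 1) (fun k => IsHomogeneous.sum _ _ _ fun j _ => isHomogeneous_C_mul_X _ _)
      rwa [one_mul] at h1
    have h2 := pow_polar (s+1) Finset.univ z a ha _ hcomp
    simp only [eval_compL] at h2
    simp only [eval_C]
    exact h2
  have haann : a ∈ ann (evs (fun i => proj p (z i)) (s+1)) := by
    rw [mem_ann_evs]
    intro q hq
    have := hrel p q hq
    simpa only [eval_C] using this
  obtain ⟨γ, hγ⟩ := rel_unique _ hfr1 _ hcann hc0 a haann
  by_cases hγ0 : γ = 0
  · intro i
    rw [hγ i, hγ0, zero_mul]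
  · exfalso
    have ha0 : ∀ i, a i ≠ 0 := fun i => by
      rw [hγ i]
      exact mul_ne_zero hγ0 (hc i)
    have hns : ((n + s : ℕ) : K) ≠ 0 := Nat.cast_ne_zero.2 (by omega)
    obtain ⟨θ, hθ⟩ := rel_linear (fun i => proj p (z i)) (Theta_span z hsp p hp) s a haann ha0 hfr0
      (fun i => z i (Fin.last n) * a i) (by
        rw [mem_ann_evs]
        intro q hq
        have h1 := der_contract z s (fun i => C (a i)) hrel p q hq
        simp only [dirP_C, map_zero, mul_zero, sub_zero, zero_sub, eval_C] at h1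
        have h2 : ((n + s : ℕ) : K) * ∑ i, z i (Fin.last n) * a i * eval (proj p (z i)) q = 0 := by
          rw [Finset.mul_sum, ← neg_eq_zero, ← Finset.sum_neg_distrib, ← h1]
          exact Finset.sum_congr rfl fun i _ => by ring
        exact (mul_eq_zero.1 h2).resolve_left hns)
    -- the last coordinate is a combination of the coordinates of the projection
    have hlin : ∀ v : Fin (n+1) → K, v (Fin.last n) = ∑ k, θ k * proj p v k := by
      let L : (Fin (n+1) → K) →ₗ[K] K := ∑ k, θ k • (LinearMap.proj k ∘ₗ Theta_proj p)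
      have hL : ∀ v, L v = ∑ k, θ k * proj p v k := by
        intro v
        simp only [L, LinearMap.sum_apply, LinearMap.smul_apply, LinearMap.comp_apply,
          LinearMap.proj_apply, smul_eq_mul]
        rfl
      have h3 : (LinearMap.proj (Fin.last n) : (Fin (n+1) → K) →ₗ[K] K) = L := by
        refine LinearMap.ext_on hsp ?_
        rintro _ ⟨i, rfl⟩
        rw [hL, LinearMap.proj_apply]
        exact mul_right_cancel₀ (ha0 i) (hθ i)
      intro v
      rw [← hL, ← h3, LinearMap.proj_apply]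
    apply hp
    rw [hlin p]
    refine Finset.sum_eq_zero fun k _ => ?_
    rw [proj]
    ring

end Geproci
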